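import Mathlib

open Cardinal Ordinal

namespace Pool.Agent.Results.MP_fec9fd_lc.RectangleDichotomy

/-- The ordinal `κ⁺`. -/
noncomputable def L (κ : Cardinal.{0}) : Ordinal.{0} := (Order.succ κ).ord

/-- The relation `G` is a union of `κ` rectangles `A j × B j`. -/
def Rect (κ : Cardinal.{0}) (G : Ordinal.{0} → Ordinal.{0} → Prop) : Prop :=
  ∃ A B : Ordinal.{0} → Set Ordinal.{0}, ∀ α β, G α β ↔ ∃ j < κ.ord, α ∈ A j ∧ β ∈ B j

/-- Some subset of `lam` of order type `γ` satisfies `P α β` for all its elements `α < β`. -/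
def HasSet (P : Ordinal.{0} → Ordinal.{0} → Prop) (lam γ : Ordinal.{0}) : Prop :=
  ∃ f : Ordinal.{0} → Ordinal.{0}, (∀ a < γ, f a < lam) ∧
    ∀ a b, a < b → b < γ → f a < f b ∧ P (f a) (f b)

section tools

lemma sup_lt {c : Cardinal.{0}} (hc : c.IsRegular) {a : Ordinal.{0}} (ha : a < c.ord)
    (g : Ordinal.{0} → Ordinal.{0}) (hg : ∀ b < a, g b < c.ord) :
    ∃ s < c.ord, ∀ b < a, g b ≤ s := by
  refine ⟨⨆ b : a.ToType, g (b.toOrd : Ordinal), ?_, ?_⟩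
  · apply iSup_lt_of_lt_cof
    · rw [hc.cof_ord]
      simpa using lt_ord.1 ha
    · intro b
      exact hg _ b.toOrd.2
  · intro b hb
    have := Ordinal.le_iSup (fun b : a.ToType => g (b.toOrd : Ordinal)) (ToType.mk ⟨b, hb⟩)
    simpa using this

/-- recursion -/
noncomputable def sq (G : Ordinal.{0} → Ordinal.{0} → Ordinal.{0}) (base : Ordinal.{0})
    (a : Ordinal.{0}) : Ordinal.{0} :=
  max base (⨆ b : Set.Iio a, G b (sq G base b))
termination_by a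
decreasing_by exact b.2

lemma sq_eq (G : Ordinal.{0} → Ordinal.{0} → Ordinal.{0}) (base a : Ordinal.{0}) :
    sq G base a = max base (⨆ b : Set.Iio a, G b (sq G base b)) := by
  rw [sq]

lemma rec_seq {c : Cardinal.{0}} (hc : c.IsRegular) (θ : Ordinal.{0}) (hθ : θ ≤ c.ord)
    (G : Ordinal.{0} → Ordinal.{0} → Ordinal.{0})
    (hG : ∀ a < θ, ∀ ξ < c.ord, G a ξ < c.ord) (base : Ordinal.{0}) (hb : base < c.ord) :
    ∃ s : Ordinal.{0} → Ordinal.{0}, ∀ a < θ, s a < c.ord ∧ base ≤ s a ∧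
      ∀ b < a, G b (s b) ≤ s a := by
  refine ⟨sq G base, ?_⟩
  intro a
  induction a using WellFoundedLT.induction with
  | _ a ih =>
    intro ha
    refine ⟨?_, ?_, ?_⟩
    · obtain ⟨s, hs, hs'⟩ := sup_lt hc (ha.trans_le hθ) (fun b => G b (sq G base b))
        (fun b hb => hG b (hb.trans ha) _ (ih b hb (hb.trans ha)).1)
      rw [sq_eq]
      refine max_lt hb ?_
      refine lt_of_le_of_lt ?_ hs
      apply ciSup_le'
      intro b
      exact hs' b b.2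
    · rw [sq_eq]
      exact le_max_left _ _
    · intro b hba
      rw [sq_eq G base a]
      refine le_trans ?_ (le_max_right _ _)
      exact le_ciSup (f := fun b : Set.Iio a => G b (sq G base b))
        Ordinal.bddAbove_of_small ⟨b, hba⟩

/-- unbounded in `lam` -/
def Unb (lam : Ordinal.{0}) (Y : Set Ordinal.{0}) : Prop := ∀ ξ < lam, ∃ α ∈ Y, ξ < α ∧ α < lam

lemma not_unb {lam : Ordinal.{0}} {Y : Set Ordinal.{0}} (h : ¬ Unb lam Y) :
    ∃ ξ < lam, ∀ α ∈ Y, α < lam → α ≤ ξ := by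
  unfold Unb at h
  push Not at h
  obtain ⟨ξ, hξ, h'⟩ := h
  refine ⟨ξ, hξ, fun α hα hl => ?_⟩
  by_contra hc
  exact absurd hl (not_lt.2 (h' α hα (not_le.1 hc)))

lemma Unb.mono {lam : Ordinal.{0}} {Y Z : Set Ordinal.{0}} (h : Unb lam Y) (hYZ : Y ⊆ Z) :
    Unb lam Z := by
  intro ξ hξ
  obtain ⟨α, hα, h1⟩ := h ξ hξ
  exact ⟨α, hYZ hα, h1⟩

/-- Sets of type `γ` inside `Y` above `ξ`. -/
def SetIn (Y : Set Ordinal.{0}) (P : Ordinal.{0} → Ordinal.{0} → Prop)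
    (lam ξ γ : Ordinal.{0}) : Prop :=
  ∃ f : Ordinal.{0} → Ordinal.{0}, (∀ a < γ, f a ∈ Y ∧ ξ < f a ∧ f a < lam) ∧
      ∀ a b, a < b → b < γ → f a < f b ∧ P (f a) (f b)

lemma hasSet_of_unb {c : Cardinal.{0}} (hc : c.IsRegular) {Y : Set Ordinal.{0}}
    (hY : Unb c.ord Y) (P : Ordinal.{0} → Ordinal.{0} → Prop)
    (hP : ∀ α ∈ Y, ∀ β ∈ Y, α < β → β < c.ord → P α β) : SetIn Y P c.ord 0 c.ord := by
  classical
  choose! pick hp1 hp2 hp3 using hY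
  have h0 : (0 : Ordinal.{0}) < c.ord := by
    have := hc.pos
    simpa using this
  obtain ⟨s, hs⟩ := rec_seq hc c.ord le_rfl (fun _ ξ => pick ξ) (fun _ _ ξ hξ => hp3 ξ hξ) 0 h0
  refine ⟨fun a => pick (s a), fun a ha => ⟨hp1 _ (hs a ha).1,
    bot_le.trans_lt (hp2 _ (hs a ha).1), hp3 _ (hs a ha).1⟩, ?_⟩
  intro a b hab hb
  have ha := hab.trans hb
  have hlt : pick (s a) < pick (s b) :=
    ((hs b hb).2.2 a hab).trans_lt (hp2 _ (hs b hb).1)
  exact ⟨hlt, hP _ (hp1 _ (hs a ha).1) _ (hp1 _ (hs b hb).1) hlt (hp3 _ (hs b hb).1)⟩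

lemma exists_enum {κ : Cardinal.{0}} {γ : Ordinal.{0}} (hγ : γ < L κ) (h0 : 0 < γ) :
    ∃ e : Ordinal.{0} → Ordinal.{0}, (∀ k, e k < γ) ∧ ∀ i < γ, ∃ k < κ.ord, e k = i := by
  classical
  have h1 : γ.card ≤ κ := by
    have := lt_ord.1 hγ
    exact Order.lt_succ_iff.1 this
  have h2 : #(Set.Iio γ) ≤ #(Set.Iio κ.ord) := by
    rw [Cardinal.mk_Iio_ordinal, Cardinal.mk_Iio_ordinal, Cardinal.card_ord,
      Cardinal.lift_le]
    exact h1
  obtain ⟨j⟩ := h2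
  refine ⟨fun k => if h : ∃ i : Set.Iio γ, (j i : Ordinal) = k then (h.choose : Ordinal) else 0,
    ?_, ?_⟩
  · intro k
    dsimp only
    split_ifs with h
    · exact h.choose.2
    · exact h0
  · intro i hi
    refine ⟨j ⟨i, hi⟩, (j ⟨i, hi⟩).2, ?_⟩
    have h : ∃ i' : Set.Iio γ, (j i' : Ordinal) = (j ⟨i, hi⟩ : Ordinal) := ⟨⟨i, hi⟩, rfl⟩
    dsimp only
    rw [dif_pos h]
    have := h.choose_spec
    have h3 := j.injective (Subtype.ext this)
    exact congrArg Subtype.val h3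

/-- few short sequences -/
lemma few {κ : Cardinal.{0}} (hpow : ∀ μ < κ, κ ^ μ ≤ κ) (ν : Ordinal.{0})
    (hν : ν < κ.ord) :
    ∃ e : Ordinal.{0} → Ordinal.{0} → Ordinal.{0},
      ∀ s : Ordinal.{0} → Ordinal.{0}, (∀ l < ν, s l < κ.ord) →
        ∃ η < κ.ord, ∀ l < ν, s l = e η l := by
  classical
  have h1 : #(Set.Iio ν → Set.Iio κ.ord) ≤ #(Set.Iio κ.ord) := by
    rw [← Cardinal.power_def, Cardinal.mk_Iio_ordinal, Cardinal.mk_Iio_ordinal,
      Cardinal.card_ord, ← Cardinal.lift_power, Cardinal.lift_le]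
    exact hpow _ (lt_ord.1 hν)
  obtain ⟨j⟩ := h1
  refine ⟨fun η μ => if h : ∃ g : Set.Iio ν → Set.Iio κ.ord, (j g : Ordinal) = η then
    (if hμ : μ ∈ Set.Iio ν then (h.choose ⟨μ, hμ⟩ : Ordinal) else 0) else 0, ?_⟩
  intro s hs
  refine ⟨j (fun l => ⟨s l, hs l l.2⟩), (j _).2, ?_⟩
  intro μ hμ
  have hex : ∃ g' : Set.Iio ν → Set.Iio κ.ord,
      (j g' : Ordinal) = (j (fun l => ⟨s l, hs l l.2⟩) : Ordinal) := ⟨_, rfl⟩
  dsimp only
  rw [dif_pos hex, dif_pos (show μ ∈ Set.Iio ν from hμ)]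
  have h3 := j.injective (Subtype.ext hex.choose_spec)
  rw [h3]

end tools

section main

variable {κ : Cardinal.{0}}

/-- Gluing blocks. -/
lemma step (hκ : κ.IsRegular) (A B : Ordinal.{0} → Set Ordinal.{0}) (Y : Set Ordinal.{0})
    (hyp : ∀ Z ⊆ Y, Unb (L κ) Z → ∃ j : Ordinal.{0} → Ordinal.{0}, ∀ k < κ.ord, j k < κ.ord ∧
      Unb (L κ) {α | α ∈ Z ∧ (∀ l < k, α ∈ B (j l)) ∧ α ∈ A (j k)}) :
    ∀ γ < L κ, ∀ Z ⊆ Y, Unb (L κ) Z → ∀ ξ < L κ,
      SetIn Z (fun α β => ∃ j < κ.ord, α ∈ A j ∧ β ∈ B j) (L κ) ξ γ := by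
  classical
  have hreg : (Order.succ κ).IsRegular := isRegular_succ hκ.aleph0_le
  have hκpos : (0 : Ordinal.{0}) < κ.ord := by
    have := hκ.pos
    simpa using this
  have hκ1 : (1 : Ordinal.{0}) < κ.ord := by
    have h1 := isSuccLimit_ord hκ.aleph0_le
    have := h1.succ_lt hκpos
    simpa using this
  have hκL : κ.ord < L κ := by
    unfold L
    exact ord_lt_ord.2 (Order.lt_succ κ)
  intro γ
  induction γ using WellFoundedLT.induction with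
  | _ γ ih =>
    intro hγ Z hZY hZ ξ hξ
    obtain ⟨j, hj⟩ := hyp Z hZY hZ
    set R : Ordinal.{0} → Set Ordinal.{0} :=
      fun k => {α | α ∈ Z ∧ (∀ l < k, α ∈ B (j l)) ∧ α ∈ A (j k)} with hR
    have hRY : ∀ k, R k ⊆ Y := fun k α hα => hZY hα.1
    have hcol : ∀ l k, l < k → l < κ.ord → ∀ α ∈ R l, ∀ β ∈ R k,
        ∃ i < κ.ord, α ∈ A i ∧ β ∈ B i := by
      intro l k hlk hl α hα β hβ
      exact ⟨j l, (hj l hl).1, hα.2.2, hβ.2.1 l hlk⟩
    rcases zero_or_succ_or_isSuccLimit γ with h0 | ⟨δ, hδ⟩ | hlim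
    · subst h0
      refine ⟨fun _ => 0, ?_, ?_⟩
      · intro a ha
        exact absurd ha (not_lt.2 zero_le)
      · intro a b _ hb
        exact absurd hb (not_lt.2 zero_le)
    · -- successor
      have hδγ : δ < γ := by rw [← hδ]; exact Order.lt_succ δ
      have hlt : ∀ a, a < γ → a < δ ∨ a = δ := by
        intro a ha
        rw [← hδ] at ha
        exact (Order.lt_succ_iff.1 ha).lt_or_eq
      obtain ⟨f0, hf0, hf0'⟩ := ih δ hδγ (hδγ.trans hγ) (R 0) (hRY 0) (hj 0 hκpos).2 ξ hξ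
      obtain ⟨s, hs, hs'⟩ := sup_lt hreg (hδγ.trans hγ) f0 (fun b hb => (hf0 b hb).2.2)
      obtain ⟨z, hz, hzs, hzL⟩ := (hj 1 hκ1).2 (max s ξ) (max_lt hs hξ)
      refine ⟨fun a => if a < δ then f0 a else z, ?_, ?_⟩
      · intro a ha
        dsimp only
        split_ifs with hc
        · exact ⟨(hf0 a hc).1.1, (hf0 a hc).2⟩
        · exact ⟨hz.1, (le_max_right _ _).trans_lt hzs, hzL⟩
      · intro a b hab hb
        dsimp only
        rcases hlt b hb with hb' | hb'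
        · rw [if_pos (hab.trans hb'), if_pos hb']
          exact hf0' a b hab hb'
        · subst hb'
          rw [if_pos hab, if_neg (lt_irrefl _)]
          have h1 : f0 a < z := (hs' a hab).trans_lt ((le_max_left _ _).trans_lt hzs)
          exact ⟨h1, hcol 0 1 zero_lt_one hκpos _ (hf0 a hab).1 _ hz⟩
    · -- limit
      have hγ0 : 0 < γ := hlim.bot_lt
      obtain ⟨e, he, he'⟩ := exists_enum hγ hγ0
      have hblock : ∀ k < κ.ord, ∀ ζ < L κ, ∃ F : Ordinal.{0} → Ordinal.{0},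
          ∃ b < L κ, (∀ a < Order.succ (e k), F a ∈ R k ∧ ζ < F a ∧
            F a < L κ ∧ F a ≤ b) ∧
          ∀ a b, a < b → b < Order.succ (e k) →
            F a < F b ∧ ∃ j < κ.ord, F a ∈ A j ∧ F b ∈ B j := by
        intro k hk ζ hζ
        have hek : Order.succ (e k) < γ := hlim.succ_lt (he k)
        obtain ⟨F, hF, hF'⟩ := ih _ hek (hek.trans hγ) (R k) (hRY k) (hj k hk).2 ζ hζ
        obtain ⟨b, hb, hb'⟩ := sup_lt hreg (hek.trans hγ) F (fun a ha => (hF a ha).2.2)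
        exact ⟨F, b, hb, fun a ha => ⟨(hF a ha).1, (hF a ha).2.1, (hF a ha).2.2, hb' a ha⟩, hF'⟩
      choose! F bd hbd hF hF' using hblock
      obtain ⟨s2, hs2⟩ := rec_seq hreg κ.ord hκL.le bd hbd ξ hξ
      have hKex : ∀ i < γ, ∃ k, i ≤ e k ∧ k < κ.ord := by
        intro i hi
        obtain ⟨k, hk, hk'⟩ := he' i hi
        exact ⟨k, hk'.ge, hk⟩
      set K : Ordinal.{0} → Ordinal.{0} := fun i => sInf {k | i ≤ e k} with hK
      have hK1 : ∀ i < γ, i ≤ e (K i) ∧ K i < κ.ord := by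
        intro i hi
        obtain ⟨k, hk, hk'⟩ := hKex i hi
        have hne : {k | i ≤ e k}.Nonempty := ⟨k, hk⟩
        exact ⟨csInf_mem hne, (csInf_le' (show k ∈ {k | i ≤ e k} from hk)).trans_lt hk'⟩
      have hK2 : ∀ i j, i < j → j < γ → K i ≤ K j := by
        intro i j hij hj
        exact csInf_le' (show K j ∈ {k | i ≤ e k} from hij.le.trans (hK1 j hj).1)
      refine ⟨fun i => F (K i) (s2 (K i)) i, ?_, ?_⟩
      · intro a ha
        obtain ⟨h1, h2⟩ := hK1 a ha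
        obtain ⟨h3, h4, -⟩ := hs2 _ h2
        obtain ⟨h5, h6, h7, -⟩ := hF (K a) h2 (s2 (K a)) h3 a (Order.lt_succ_iff.2 h1)
        exact ⟨h5.1, h4.trans_lt h6, h7⟩
      · intro a b hab hb
        have ha := hab.trans hb
        obtain ⟨h1, h2⟩ := hK1 a ha
        obtain ⟨h1', h2'⟩ := hK1 b hb
        rcases (hK2 a b hab hb).eq_or_lt with heq | hlt
        · dsimp only
          rw [heq]
          exact hF' (K b) h2' (s2 (K b)) (hs2 _ h2').1 a b hab (Order.lt_succ_iff.2 h1')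
        · obtain ⟨h5, -, -, h8⟩ := hF (K a) h2 (s2 (K a)) (hs2 _ h2).1 a (Order.lt_succ_iff.2 h1)
          obtain ⟨g5, g6, g7, -⟩ := hF (K b) h2' (s2 (K b)) (hs2 _ h2').1 b
            (Order.lt_succ_iff.2 h1')
          have hlt' : F (K a) (s2 (K a)) a < F (K b) (s2 (K b)) b :=
            (h8.trans ((hs2 _ h2').2.2 _ hlt)).trans_lt g6
          exact ⟨hlt', hcol _ _ hlt h2 _ h5 _ g5⟩

/-- The greedy sequence of rectangles of `β`. -/
noncomputable def gr (κ : Cardinal.{0}) (A B : Ordinal.{0} → Set Ordinal.{0})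
    (Z : Set Ordinal.{0}) (β k : Ordinal.{0}) : Ordinal.{0} :=
  open Classical in
  if h : ∃ j < κ.ord, β ∈ B j ∧
      Unb (L κ) {α | α ∈ Z ∧ (∀ l : Set.Iio k, α ∈ B (gr κ A B Z β l)) ∧ α ∈ A j}
  then h.choose else 0
termination_by k
decreasing_by exact l.2

/-- The greedy sequence can be continued at `k`. -/
def Good (κ : Cardinal.{0}) (A B : Ordinal.{0} → Set Ordinal.{0})
    (Z : Set Ordinal.{0}) (β k : Ordinal.{0}) : Prop :=
  ∃ j < κ.ord, β ∈ B j ∧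
      Unb (L κ) {α | α ∈ Z ∧ (∀ l < k, α ∈ B (gr κ A B Z β l)) ∧ α ∈ A j}

lemma gr_spec (A B : Ordinal.{0} → Set Ordinal.{0})
    (Z : Set Ordinal.{0}) (β k : Ordinal.{0}) (hg : Good κ A B Z β k) :
    gr κ A B Z β k < κ.ord ∧ β ∈ B (gr κ A B Z β k) ∧
      Unb (L κ) {α | α ∈ Z ∧ (∀ l < k, α ∈ B (gr κ A B Z β l)) ∧
        α ∈ A (gr κ A B Z β k)} := by
  have h : ∃ j < κ.ord, β ∈ B j ∧
      Unb (L κ) {α | α ∈ Z ∧ (∀ l : Set.Iio k, α ∈ B (gr κ A B Z β l)) ∧ α ∈ A j} := by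
    obtain ⟨j, h1, h2, h3⟩ := hg
    refine ⟨j, h1, h2, h3.mono ?_⟩
    rintro α ⟨h4, h5, h6⟩
    exact ⟨h4, fun l => h5 l l.2, h6⟩
  have heq : gr κ A B Z β k = h.choose := by
    rw [gr, dif_pos h]
  rw [heq]
  obtain ⟨h1, h2, h3⟩ := h.choose_spec
  refine ⟨h1, h2, h3.mono ?_⟩
  rintro α ⟨h4, h5, h6⟩
  exact ⟨h4, fun l hl => h5 ⟨l, hl⟩, h6⟩

/-- If no greedy sequence is long, there is an unbounded set without edges. -/
lemma free (hκ : κ.IsRegular) (hpow : ∀ μ < κ, κ ^ μ ≤ κ)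
    (A B : Ordinal.{0} → Set Ordinal.{0}) (Z : Set Ordinal.{0}) (hZ : Unb (L κ) Z)
    (hyp : ∀ β, ∃ k < κ.ord, ¬ Good κ A B Z β k) :
    ∃ W ⊆ Z, Unb (L κ) W ∧ ∀ α ∈ W, ∀ β ∈ W, α < β → β < L κ →
      ¬ ∃ j < κ.ord, α ∈ A j ∧ β ∈ B j := by
  classical
  have hreg : (Order.succ κ).IsRegular := isRegular_succ hκ.aleph0_le
  have hκL : κ.ord < L κ := by
    unfold L
    exact ord_lt_ord.2 (Order.lt_succ κ)
  have hL0 : (0 : Ordinal.{0}) < L κ := bot_le.trans_lt hκL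
  -- the least bad `k`
  set n : Ordinal.{0} → Ordinal.{0} := fun β => sInf {k | ¬ Good κ A B Z β k} with hn
  have hn1 : ∀ β, n β < κ.ord := by
    intro β
    obtain ⟨k, hk, hk'⟩ := hyp β
    exact (csInf_le' (show k ∈ {k | ¬ Good κ A B Z β k} from hk')).trans_lt hk
  have hn2 : ∀ β, ¬ Good κ A B Z β (n β) := by
    intro β
    obtain ⟨k, hk, hk'⟩ := hyp β
    exact csInf_mem (s := {k | ¬ Good κ A B Z β k}) ⟨k, hk'⟩
  have hn3 : ∀ β, ∀ l < n β, Good κ A B Z β l := by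
    intro β l hl
    by_contra hcon
    exact absurd (csInf_le' (show l ∈ {k | ¬ Good κ A B Z β k} from hcon)) (not_le.2 hl)
  have hfew := few hpow
  choose! e he using hfew
  have he' : ∀ β, ∃ η < κ.ord, ∀ l < n β, gr κ A B Z β l = e (n β) η l :=
    fun β => he (n β) (hn1 β) _ (fun l hl => (gr_spec A B Z β l (hn3 β l hl)).1)
  -- one class
  obtain ⟨k1, hk1, η1, hη1, hU⟩ : ∃ ν < κ.ord, ∃ η < κ.ord,
      Unb (L κ) {β | β ∈ Z ∧ n β = ν ∧ ∀ l < ν, gr κ A B Z β l = e ν η l} := by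
    by_contra hcon
    push Not at hcon
    have h1 : ∀ ν < κ.ord, ∃ b < L κ, ∀ η < κ.ord, ∀ β ∈ Z, β < L κ → n β = ν →
        (∀ l < ν, gr κ A B Z β l = e ν η l) → β ≤ b := by
      intro ν hν
      have h2 : ∀ η < κ.ord, ∃ b < L κ, ∀ β ∈ Z, β < L κ → n β = ν →
          (∀ l < ν, gr κ A B Z β l = e ν η l) → β ≤ b := by
        intro η hη
        obtain ⟨b, hb, hb'⟩ := not_unb (hcon ν hν η hη)
        exact ⟨b, hb, fun β hβ hβL hnβ hag => hb' β ⟨hβ, hnβ, hag⟩ hβL⟩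
      choose! b hb hb' using h2
      obtain ⟨s, hs, hs'⟩ := sup_lt hreg hκL b hb
      exact ⟨s, hs, fun η hη β hβ hβL hnβ hag => (hb' η hη β hβ hβL hnβ hag).trans (hs' η hη)⟩
    choose! b hb hb' using h1
    obtain ⟨s, hs, hs'⟩ := sup_lt hreg hκL b hb
    obtain ⟨β, hβ, hsβ, hβL⟩ := hZ s hs
    obtain ⟨η, hη, hη'⟩ := he' β
    have := (hb' (n β) (hn1 β) η hη β hβ hβL rfl hη').trans (hs' _ (hn1 β))
    exact absurd hsβ (not_lt.2 this)
  -- bounds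
  set W : Set Ordinal.{0} := {β | β ∈ Z ∧ n β = k1 ∧ ∀ l < k1, gr κ A B Z β l = e k1 η1 l} with hW
  have hbd : ∀ j < κ.ord, ∃ b < L κ, ∀ β ∈ W, β ∈ B j → ∀ α ∈ W, α ∈ A j → α < L κ → α ≤ b := by
    intro j hj
    by_cases hex : ∃ β ∈ W, β ∈ B j
    · obtain ⟨β0, ⟨hβZ, hnβ, hgr⟩, hβj⟩ := hex
      have hng := hn2 β0
      unfold Good at hng
      push Not at hng
      obtain ⟨b, hb, hb'⟩ := not_unb (hng j hj hβj)
      refine ⟨b, hb, fun β _ _ α hα hαj hαL => hb' α ⟨hα.1, ?_, hαj⟩ hαL⟩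
      intro l hl
      rw [hnβ] at hl
      rw [hgr l hl, ← hα.2.2 l hl]
      exact (gr_spec A B Z α l (hn3 α l (by rw [hα.2.1]; exact hl))).2.1
    · exact ⟨0, hL0, fun β hβ hβj => absurd ⟨β, hβ, hβj⟩ hex⟩
  choose! b hb hb' using hbd
  obtain ⟨s, hs, hs'⟩ := sup_lt hreg hκL b hb
  refine ⟨{β | β ∈ W ∧ s < β}, fun β hβ => hβ.1.1, ?_, ?_⟩
  · intro ξ hξ
    obtain ⟨β, hβ, hξβ, hβL⟩ := hU (max ξ s) (max_lt hξ hs)
    exact ⟨β, ⟨hβ, (le_max_right _ _).trans_lt hξβ⟩, (le_max_left _ _).trans_lt hξβ, hβL⟩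
  · rintro α ⟨hαW, hsα⟩ β ⟨hβW, hsβ⟩ hαβ hβL ⟨j, hj, hαj, hβj⟩
    have := (hb' j hj β hβW hβj α hαW hαj (hαβ.trans hβL)).trans (hs' j hj)
    exact absurd hsα (not_lt.2 this)

/-- The dichotomy inside an unbounded set. -/
lemma dich (hκ : κ.IsRegular) (hpow : ∀ μ < κ, κ ^ μ ≤ κ)
    {G : Ordinal.{0} → Ordinal.{0} → Prop} (hG : Rect κ G) (Y : Set Ordinal.{0})
    (hY : Unb (L κ) Y) :
    (∀ γ < L κ, SetIn Y G (L κ) 0 γ) ∨
      ∃ W ⊆ Y, Unb (L κ) W ∧ ∀ α ∈ W, ∀ β ∈ W, α < β → β < L κ → ¬ G α β := by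
  classical
  obtain ⟨A, B, hAB⟩ := hG
  have hκL : κ.ord < L κ := by
    unfold L
    exact ord_lt_ord.2 (Order.lt_succ κ)
  have hL0 : (0 : Ordinal.{0}) < L κ := bot_le.trans_lt hκL
  by_cases hyp : ∀ Z ⊆ Y, Unb (L κ) Z → ∃ j : Ordinal.{0} → Ordinal.{0}, ∀ k < κ.ord,
      j k < κ.ord ∧ Unb (L κ) {α | α ∈ Z ∧ (∀ l < k, α ∈ B (j l)) ∧ α ∈ A (j k)}
  · left
    intro γ hγ
    obtain ⟨f, hf, hf'⟩ := step hκ A B Y hyp γ hγ Y subset_rfl hY 0 hL0
    exact ⟨f, hf, fun a b hab hb => ⟨(hf' a b hab hb).1, (hAB _ _).2 (hf' a b hab hb).2⟩⟩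
  · right
    push Not at hyp
    obtain ⟨Z, hZY, hZ, hyp⟩ := hyp
    have hyp' : ∀ β, ∃ k < κ.ord, ¬ Good κ A B Z β k := by
      intro β
      by_contra hcon
      push Not at hcon
      obtain ⟨k, hk, hk'⟩ := hyp (gr κ A B Z β)
      obtain ⟨h1, h2, h3⟩ := gr_spec A B Z β k (hcon k hk)
      exact hk' h1 h3
    obtain ⟨W, hWZ, hW, hfree⟩ := free hκ hpow A B Z hZ hyp'
    exact ⟨W, hWZ.trans hZY, hW, fun α hα β hβ hαβ hβL hGαβ =>
      hfree α hα β hβ hαβ hβL ((hAB α β).1 hGαβ)⟩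

end main

section dichotomy

variable {κ : Cardinal.{0}}

lemma unb_univ (hκ : κ.IsRegular) : Unb (L κ) Set.univ := by
  have hlim : Order.IsSuccLimit (L κ) :=
    isSuccLimit_ord (hκ.aleph0_le.trans (Order.le_succ κ))
  exact fun ξ hξ => ⟨Order.succ ξ, trivial, Order.lt_succ ξ, hlim.succ_lt hξ⟩

/-- The dichotomy. -/
theorem dichotomy (hκ : κ.IsRegular) (hpow : ∀ μ < κ, κ ^ μ ≤ κ)
    {G : Ordinal.{0} → Ordinal.{0} → Prop} (hG : Rect κ G) :
    (∀ γ < L κ, HasSet G (L κ) γ) ∨ HasSet (fun α β => ¬ G α β) (L κ) (L κ) := by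
  rcases dich hκ hpow hG Set.univ (unb_univ hκ) with h | ⟨W, -, hW, hfree⟩
  · left
    intro γ hγ
    obtain ⟨f, hf, hf'⟩ := h γ hγ
    exact ⟨f, fun a ha => (hf a ha).2.2, hf'⟩
  · right
    have hreg : (Order.succ κ).IsRegular := isRegular_succ hκ.aleph0_le
    obtain ⟨f, hf, hf'⟩ := hasSet_of_unb hreg hW (fun α β => ¬ G α β) hfree
    exact ⟨f, fun a ha => (hf a ha).2.2, hf'⟩

end dichotomy

section ch

lemma L_aleph1 : L ℵ₁ = ω_ 2 := by
  unfold L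
  rw [Cardinal.succ_aleph, Cardinal.ord_aleph]
  norm_num

lemma ord_aleph1 : (ℵ₁ : Cardinal.{0}).ord = ω₁ := Cardinal.ord_aleph 1

lemma pow_of_ch (hch : (𝔠 : Cardinal.{0}) = ℵ₁) : ∀ μ < (ℵ₁ : Cardinal.{0}), ℵ₁ ^ μ ≤ ℵ₁ := by
  intro μ hμ
  have h2 : μ ≤ ℵ₀ := by
    rw [← succ_aleph0] at hμ
    exact Order.lt_succ_iff.1 hμ
  calc (ℵ₁ : Cardinal.{0}) ^ μ ≤ ℵ₁ ^ (ℵ₀ : Cardinal.{0}) :=
        Cardinal.power_le_power_left (Cardinal.aleph_pos 1).ne' h2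
    _ = ℵ₁ := by rw [← hch, Cardinal.continuum_power_aleph0]

lemma no_mono (r : Ordinal.{0} → ℝ)
    (H : ∀ a b, a < b → b < ω₁ → r a < r b) : False := by
  have hlim : Order.IsSuccLimit (ω₁ : Ordinal.{0}) := isSuccLimit_omega 1
  have h1 : ∀ a : Set.Iio (ω₁ : Ordinal.{0}), ∃ q : ℚ, r a < q ∧ (q : ℝ) < r (Order.succ a.1) :=
    fun a => exists_rat_btwn (H _ _ (Order.lt_succ a.1) (hlim.succ_lt a.2))
  choose q hq1 hq2 using h1
  have hinj : Function.Injective q := by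
    intro a b hab
    rcases lt_trichotomy a b with h | h | h
    · exfalso
      have h2 : r (Order.succ a.1) ≤ r b := by
        rcases (Order.succ_le_of_lt (show a.1 < b.1 from h)).eq_or_lt with h3 | h3
        · rw [h3]
        · exact (H _ _ h3 b.2).le
      have := (hq2 a).trans_le (h2.trans (hq1 b).le)
      rw [hab] at this
      exact lt_irrefl _ this
    · exact h
    · exfalso
      have h2 : r (Order.succ b.1) ≤ r a := by
        rcases (Order.succ_le_of_lt (show b.1 < a.1 from h)).eq_or_lt with h3 | h3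
        · rw [h3]
        · exact (H _ _ h3 a.2).le
      have := (hq2 b).trans_le (h2.trans (hq1 a).le)
      rw [hab] at this
      exact lt_irrefl _ this
  have hc : Countable (Set.Iio (ω₁ : Ordinal.{0})) := hinj.countable
  have h4 := Cardinal.mk_le_aleph0_iff.2 hc
  rw [Cardinal.mk_Iio_ordinal] at h4
  simp at h4

/-- If CH fails, Sierpinski's colouring is a union of countably many rectangles. -/
lemma sierpinski (hch : (𝔠 : Cardinal.{0}) ≠ ℵ₁) :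
    ∃ G : Ordinal.{0} → Ordinal.{0} → Prop, Rect ℵ₁ G ∧ ¬ HasSet G (ω_ 2) ω₁ ∧
      ¬ HasSet (fun α β => ¬ G α β) (ω_ 2) ω₁ := by
  classical
  have hc2 : (ℵ_ 2 : Cardinal.{0}) ≤ 𝔠 := by
    have h1 : (ℵ₁ : Cardinal.{0}) < 𝔠 := lt_of_le_of_ne Cardinal.aleph_one_le_continuum hch.symm
    have h2 := Order.succ_le_of_lt h1
    rw [Cardinal.succ_aleph] at h2
    norm_num at h2
    exact h2
  have hr : ∃ r : Ordinal.{0} → ℝ, ∀ α β, α < β → β < ω_ 2 → r α ≠ r β := by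
    have h3 : Cardinal.lift.{0} #(Set.Iio (ω_ 2 : Ordinal.{0})) ≤ Cardinal.lift.{1} #ℝ := by
      rw [Cardinal.mk_Iio_ordinal, Cardinal.mk_real]
      simpa using Cardinal.lift_le.{1}.2 hc2
    obtain ⟨j⟩ := Cardinal.lift_mk_le'.1 h3
    refine ⟨fun α => if hα : α ∈ Set.Iio (ω_ 2 : Ordinal.{0}) then j ⟨α, hα⟩ else 0,
      fun α β hαβ hβ => ?_⟩
    dsimp only
    rw [dif_pos (show α ∈ Set.Iio (ω_ 2 : Ordinal.{0}) from hαβ.trans hβ),
      dif_pos (show β ∈ Set.Iio (ω_ 2 : Ordinal.{0}) from hβ)]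
    intro heq
    exact hαβ.ne (congrArg Subtype.val (j.injective heq))
  obtain ⟨r, hr⟩ := hr
  obtain ⟨q, hq⟩ := exists_surjective_nat ℚ
  have hω : ∀ n : ℕ, (n : Ordinal.{0}) < ω₁ := fun n =>
    (Ordinal.natCast_lt_omega0 n).trans (Ordinal.omega0_lt_omega_one)
  refine ⟨fun α β => r α < r β, ?_, ?_, ?_⟩
  · refine ⟨fun j => {α | ∃ n : ℕ, j = n ∧ r α < q n}, fun j => {β | ∃ n : ℕ, j = n ∧ q n < r β},
      fun α β => ?_⟩
    rw [ord_aleph1]
    constructor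
    · intro hab
      obtain ⟨p, hp1, hp2⟩ := exists_rat_btwn hab
      obtain ⟨n, rfl⟩ := hq p
      exact ⟨n, hω n, ⟨n, rfl, hp1⟩, n, rfl, hp2⟩
    · rintro ⟨j, -, ⟨n, hn, h1⟩, m, hm, h2⟩
      have hnm : n = m := by
        rw [hn] at hm
        exact_mod_cast hm
      rw [← hnm] at h2
      exact h1.trans h2
  · rintro ⟨f, hf, hf'⟩
    exact no_mono (fun a => r (f a)) (fun a b hab hb => (hf' a b hab hb).2)
  · rintro ⟨f, hf, hf'⟩
    refine no_mono (fun a => - r (f a)) (fun a b hab hb => ?_)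
    have h1 := (hf' a b hab hb).2
    have h2 := hr (f a) (f b) (hf' a b hab hb).1 (hf b hb)
    exact neg_lt_neg (lt_of_le_of_ne (not_lt.1 h1) h2.symm)

end ch

/-- The result. Let `κ` be regular with `κ ^ μ ≤ κ` for all `μ < κ` (for `κ = ℵ₁` this is CH).
If `G` is a union of `κ` rectangles, then there are sets of all order types `γ < κ⁺` all of whose
pairs are in `G`, or there is a set of order type `κ⁺` none of whose pairs is in `G`. For
`κ = ℵ₁` this is equivalent to CH, and so is the existence, for every union `G` of `ℵ₁`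
rectangles, of a set of order type `ω₁` in `ω₂` all or none of whose pairs are in `G`. -/
theorem result :
    (∀ κ : Cardinal.{0}, κ.IsRegular → (∀ μ < κ, κ ^ μ ≤ κ) →
      ∀ G : Ordinal.{0} → Ordinal.{0} → Prop, Rect κ G →
        (∀ γ < L κ, HasSet G (L κ) γ) ∨ HasSet (fun α β => ¬ G α β) (L κ) (L κ)) ∧
    ((𝔠 : Cardinal.{0}) = ℵ₁ ↔ ∀ G : Ordinal.{0} → Ordinal.{0} → Prop, Rect ℵ₁ G →
      (∀ γ < ω_ 2, HasSet G (ω_ 2) γ) ∨ HasSet (fun α β => ¬ G α β) (ω_ 2) (ω_ 2)) ∧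
    ((𝔠 : Cardinal.{0}) = ℵ₁ ↔ ∀ G : Ordinal.{0} → Ordinal.{0} → Prop, Rect ℵ₁ G →
      HasSet G (ω_ 2) ω₁ ∨ HasSet (fun α β => ¬ G α β) (ω_ 2) ω₁) := by
  have h12 : (ω₁ : Ordinal.{0}) < ω_ 2 := by
    rw [Ordinal.omega_lt_omega]
    exact one_lt_two
  have hpos : (𝔠 : Cardinal.{0}) = ℵ₁ → ∀ G : Ordinal.{0} → Ordinal.{0} → Prop, Rect ℵ₁ G →
      (∀ γ < ω_ 2, HasSet G (ω_ 2) γ) ∨ HasSet (fun α β => ¬ G α β) (ω_ 2) (ω_ 2) := by
    intro hch G hG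
    have := dichotomy isRegular_aleph_one (pow_of_ch hch) hG
    rwa [L_aleph1] at this
  have hneg : (∀ G : Ordinal.{0} → Ordinal.{0} → Prop, Rect ℵ₁ G →
      HasSet G (ω_ 2) ω₁ ∨ HasSet (fun α β => ¬ G α β) (ω_ 2) ω₁) → (𝔠 : Cardinal.{0}) = ℵ₁ := by
    intro H
    by_contra hch
    obtain ⟨G, hG, h1, h2⟩ := sierpinski hch
    rcases H G hG with h | h
    · exact h1 h
    · exact h2 h
  have hcut : (∀ G : Ordinal.{0} → Ordinal.{0} → Prop, Rect ℵ₁ G →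
      (∀ γ < ω_ 2, HasSet G (ω_ 2) γ) ∨ HasSet (fun α β => ¬ G α β) (ω_ 2) (ω_ 2)) →
      ∀ G : Ordinal.{0} → Ordinal.{0} → Prop, Rect ℵ₁ G →
      HasSet G (ω_ 2) ω₁ ∨ HasSet (fun α β => ¬ G α β) (ω_ 2) ω₁ := by
    intro H G hG
    rcases H G hG with h | ⟨f, hf, hf'⟩
    · exact Or.inl (h _ h12)
    · exact Or.inr ⟨f, fun a ha => hf a (ha.trans h12), fun a b hab hb =>
        hf' a b hab (hb.trans h12)⟩
  exact ⟨fun κ hκ hpow G hG => dichotomy hκ hpow hG, ⟨hpos, fun H => hneg (hcut H)⟩,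
    ⟨fun hch => hcut (hpos hch), hneg⟩⟩

end Pool.Agent.Results.MP_fec9fd_lc.RectangleDichotomy
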