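import Mathlib

open Cardinal Ordinal

namespace Pool.Agent.Results.MP_fec9fd_lc.TameColourings

/-- The ordinal `κ⁺`. -/
noncomputable def L (κ : Cardinal.{0}) : Ordinal.{0} := (Order.succ κ).ord

/-- The relation `G` is a union of `κ` rectangles `A j × B j`. -/
def Rect (κ : Cardinal.{0}) (G : Ordinal.{0} → Ordinal.{0} → Prop) : Prop :=
  ∃ A B : Ordinal.{0} → Set Ordinal.{0}, ∀ α β, G α β ↔ ∃ j < κ.ord, α ∈ A j ∧ β ∈ B j

/-- Some subset of `lam` of order type `γ` satisfies `P α β` for all its elements `α < β`. -/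
def HasSet (P : Ordinal.{0} → Ordinal.{0} → Prop) (lam γ : Ordinal.{0}) : Prop :=
  ∃ f : Ordinal.{0} → Ordinal.{0}, (∀ a < γ, f a < lam) ∧
    ∀ a b, a < b → b < γ → f a < f b ∧ P (f a) (f b)

/-- `H` is piecewise dependent: for every `δ < κ⁺` the interval `[δ, κ⁺)` is covered by `κ` sets
`T η` such that for no `η` and no infinite sequence `x 0, x 1, … < δ` are all finite patterns of
the relations `H (x i) β` realised by elements `β` of `T η`. -/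
def Dep (κ : Cardinal.{0}) (H : Ordinal.{0} → Ordinal.{0} → Prop) : Prop :=
  ∀ δ < L κ, ∃ T : Ordinal.{0} → Set Ordinal.{0},
    (∀ β, δ ≤ β → β < L κ → ∃ η < κ.ord, β ∈ T η) ∧
    ∀ η < κ.ord, ¬ ∃ x : ℕ → Ordinal.{0}, (∀ n, x n < δ) ∧
      ∀ (n : ℕ) (s : ℕ → Prop), ∃ β ∈ T η, δ ≤ β ∧ β < L κ ∧ ∀ i < n, (H (x i) β ↔ s i)

/-- For no `β < κ⁺` does the set `{α < β : E α β}` contain a set of order type `θ`. -/
def Small (κ : Cardinal.{0}) (θ : Ordinal.{0}) (E : Ordinal.{0} → Ordinal.{0} → Prop) : Prop :=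
  ∀ β < L κ, ¬ ∃ f : Ordinal.{0} → Ordinal.{0}, (∀ a < θ, f a < β ∧ E (f a) β) ∧
    ∀ a b, a < b → b < θ → f a < f b

/-- `H` has finite VC dimension: for some `d`, no `d` ordinals have all their patterns realised
above them. -/
def FinVC (κ : Cardinal.{0}) (H : Ordinal.{0} → Ordinal.{0} → Prop) : Prop :=
  ∃ d : ℕ, ¬ ∃ x : Fin d → Ordinal.{0}, ∀ s : Fin d → Prop,
    ∃ β < L κ, (∀ i, x i < β) ∧ ∀ i, (H (x i) β ↔ s i)

/-- `c` is tame: there are `θ < κ⁺` unions `U ν` of `κ` rectangles that cover the pairs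
`α < β < κ⁺` outside a relation `E` with small sections, and when `ν` is least with `U ν α β`,
the colour `c α β` is determined by the truth values at `α, β` of `n ν` piecewise dependent
relations `H ν k`, `k < n ν`. -/
def Tame (κ : Cardinal.{0}) {m : ℕ} (c : Ordinal.{0} → Ordinal.{0} → Fin m) : Prop :=
  ∃ (θ : Ordinal.{0}) (U : Ordinal.{0} → Ordinal.{0} → Ordinal.{0} → Prop)
    (n : Ordinal.{0} → ℕ) (H : Ordinal.{0} → ℕ → Ordinal.{0} → Ordinal.{0} → Prop)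
    (F : Ordinal.{0} → Set ℕ → Fin m) (E : Ordinal.{0} → Ordinal.{0} → Prop) (η : Ordinal.{0}),
    θ < L κ ∧ (∀ ν < θ, Rect κ (U ν)) ∧ (∀ ν < θ, ∀ k < n ν, Dep κ (H ν k)) ∧
    η < L κ ∧ Small κ η E ∧
    ∀ α β, α < β → β < L κ → ¬ E α β →
      ∃ ν < θ, U ν α β ∧ (∀ ν' < ν, ¬ U ν' α β) ∧ c α β = F ν {k | k < n ν ∧ H ν k α β}

section tools

lemma sup_lt {c : Cardinal.{0}} (hc : c.IsRegular) {a : Ordinal.{0}} (ha : a < c.ord)
    (g : Ordinal.{0} → Ordinal.{0}) (hg : ∀ b < a, g b < c.ord) :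
    ∃ s < c.ord, ∀ b < a, g b ≤ s := by
  refine ⟨⨆ b : a.ToType, g (b.toOrd : Ordinal), ?_, ?_⟩
  · apply iSup_lt_of_lt_cof
    · rw [hc.cof_ord]
      simpa using lt_ord.1 ha
    · intro b
      exact hg _ b.toOrd.2
  · intro b hb
    have := Ordinal.le_iSup (fun b : a.ToType => g (b.toOrd : Ordinal)) (ToType.mk ⟨b, hb⟩)
    simpa using this

/-- recursion -/
noncomputable def sq (G : Ordinal.{0} → Ordinal.{0} → Ordinal.{0}) (base : Ordinal.{0})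
    (a : Ordinal.{0}) : Ordinal.{0} :=
  max base (⨆ b : Set.Iio a, G b (sq G base b))
termination_by a
decreasing_by exact b.2

lemma sq_eq (G : Ordinal.{0} → Ordinal.{0} → Ordinal.{0}) (base a : Ordinal.{0}) :
    sq G base a = max base (⨆ b : Set.Iio a, G b (sq G base b)) := by
  rw [sq]

lemma rec_seq {c : Cardinal.{0}} (hc : c.IsRegular) (θ : Ordinal.{0}) (hθ : θ ≤ c.ord)
    (G : Ordinal.{0} → Ordinal.{0} → Ordinal.{0})
    (hG : ∀ a < θ, ∀ ξ < c.ord, G a ξ < c.ord) (base : Ordinal.{0}) (hb : base < c.ord) :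
    ∃ s : Ordinal.{0} → Ordinal.{0}, ∀ a < θ, s a < c.ord ∧ base ≤ s a ∧
      ∀ b < a, G b (s b) ≤ s a := by
  refine ⟨sq G base, ?_⟩
  intro a
  induction a using WellFoundedLT.induction with
  | _ a ih =>
    intro ha
    refine ⟨?_, ?_, ?_⟩
    · obtain ⟨s, hs, hs'⟩ := sup_lt hc (ha.trans_le hθ) (fun b => G b (sq G base b))
        (fun b hb => hG b (hb.trans ha) _ (ih b hb (hb.trans ha)).1)
      rw [sq_eq]
      refine max_lt hb ?_
      refine lt_of_le_of_lt ?_ hs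
      apply ciSup_le'
      intro b
      exact hs' b b.2
    · rw [sq_eq]
      exact le_max_left _ _
    · intro b hba
      rw [sq_eq G base a]
      refine le_trans ?_ (le_max_right _ _)
      exact le_ciSup (f := fun b : Set.Iio a => G b (sq G base b))
        Ordinal.bddAbove_of_small ⟨b, hba⟩

/-- unbounded in `lam` -/
def Unb (lam : Ordinal.{0}) (Y : Set Ordinal.{0}) : Prop := ∀ ξ < lam, ∃ α ∈ Y, ξ < α ∧ α < lam

lemma not_unb {lam : Ordinal.{0}} {Y : Set Ordinal.{0}} (h : ¬ Unb lam Y) :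
    ∃ ξ < lam, ∀ α ∈ Y, α < lam → α ≤ ξ := by
  unfold Unb at h
  push Not at h
  obtain ⟨ξ, hξ, h'⟩ := h
  refine ⟨ξ, hξ, fun α hα hl => ?_⟩
  by_contra hc
  exact absurd hl (not_lt.2 (h' α hα (not_le.1 hc)))

lemma Unb.mono {lam : Ordinal.{0}} {Y Z : Set Ordinal.{0}} (h : Unb lam Y) (hYZ : Y ⊆ Z) :
    Unb lam Z := by
  intro ξ hξ
  obtain ⟨α, hα, h1⟩ := h ξ hξ
  exact ⟨α, hYZ hα, h1⟩

/-- Sets of type `γ` inside `Y` above `ξ`. -/
def SetIn (Y : Set Ordinal.{0}) (P : Ordinal.{0} → Ordinal.{0} → Prop)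
    (lam ξ γ : Ordinal.{0}) : Prop :=
  ∃ f : Ordinal.{0} → Ordinal.{0}, (∀ a < γ, f a ∈ Y ∧ ξ < f a ∧ f a < lam) ∧
      ∀ a b, a < b → b < γ → f a < f b ∧ P (f a) (f b)

lemma exists_enum {κ : Cardinal.{0}} {γ : Ordinal.{0}} (hγ : γ < L κ) (h0 : 0 < γ) :
    ∃ e : Ordinal.{0} → Ordinal.{0}, (∀ k, e k < γ) ∧ ∀ i < γ, ∃ k < κ.ord, e k = i := by
  classical
  have h1 : γ.card ≤ κ := by
    have := lt_ord.1 hγ
    exact Order.lt_succ_iff.1 this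
  have h2 : #(Set.Iio γ) ≤ #(Set.Iio κ.ord) := by
    rw [Cardinal.mk_Iio_ordinal, Cardinal.mk_Iio_ordinal, Cardinal.card_ord,
      Cardinal.lift_le]
    exact h1
  obtain ⟨j⟩ := h2
  refine ⟨fun k => if h : ∃ i : Set.Iio γ, (j i : Ordinal) = k then (h.choose : Ordinal) else 0,
    ?_, ?_⟩
  · intro k
    dsimp only
    split_ifs with h
    · exact h.choose.2
    · exact h0
  · intro i hi
    refine ⟨j ⟨i, hi⟩, (j ⟨i, hi⟩).2, ?_⟩
    have h : ∃ i' : Set.Iio γ, (j i' : Ordinal) = (j ⟨i, hi⟩ : Ordinal) := ⟨⟨i, hi⟩, rfl⟩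
    dsimp only
    rw [dif_pos h]
    have := h.choose_spec
    have h3 := j.injective (Subtype.ext this)
    exact congrArg Subtype.val h3

/-- few short sequences -/
lemma few {κ : Cardinal.{0}} (hpow : ∀ μ < κ, κ ^ μ ≤ κ) (ν : Ordinal.{0})
    (hν : ν < κ.ord) :
    ∃ e : Ordinal.{0} → Ordinal.{0} → Ordinal.{0},
      ∀ s : Ordinal.{0} → Ordinal.{0}, (∀ l < ν, s l < κ.ord) →
        ∃ η < κ.ord, ∀ l < ν, s l = e η l := by
  classical
  have h1 : #(Set.Iio ν → Set.Iio κ.ord) ≤ #(Set.Iio κ.ord) := by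
    rw [← Cardinal.power_def, Cardinal.mk_Iio_ordinal, Cardinal.mk_Iio_ordinal,
      Cardinal.card_ord, ← Cardinal.lift_power, Cardinal.lift_le]
    exact hpow _ (lt_ord.1 hν)
  obtain ⟨j⟩ := h1
  refine ⟨fun η μ => if h : ∃ g : Set.Iio ν → Set.Iio κ.ord, (j g : Ordinal) = η then
    (if hμ : μ ∈ Set.Iio ν then (h.choose ⟨μ, hμ⟩ : Ordinal) else 0) else 0, ?_⟩
  intro s hs
  refine ⟨j (fun l => ⟨s l, hs l l.2⟩), (j _).2, ?_⟩
  intro μ hμ
  have hex : ∃ g' : Set.Iio ν → Set.Iio κ.ord,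
      (j g' : Ordinal) = (j (fun l => ⟨s l, hs l l.2⟩) : Ordinal) := ⟨_, rfl⟩
  dsimp only
  rw [dif_pos hex, dif_pos (show μ ∈ Set.Iio ν from hμ)]
  have h3 := j.injective (Subtype.ext hex.choose_spec)
  rw [h3]

end tools

section families

variable {κ : Cardinal.{0}}

/-- Families of large sets. -/
structure Fam (Q : Set Ordinal.{0} → Prop) : Prop where
  mono : ∀ X X' : Set Ordinal.{0}, X ⊆ X' → Q X → Q X'
  union : ∀ X X' : Set Ordinal.{0}, Q (X ∪ X') → Q X ∨ Q X'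
  nonempty : ∀ X : Set Ordinal.{0}, Q X → X.Nonempty

/-- The hierarchy over the family `Q`: sums of `κ` blocks. -/
def Hi (κ : Cardinal.{0}) (N : Ordinal.{0} → Ordinal.{0} → Prop) (Q : Set Ordinal.{0} → Prop)
    (ρ : Ordinal.{0}) (X : Set Ordinal.{0}) : Prop :=
  Q X ∧ ∃ b : Ordinal.{0} → Set Ordinal.{0}, (∀ k < κ.ord, b k ⊆ X) ∧
    (∀ l k, l < k → k < κ.ord → ∀ α ∈ b l, ∀ β ∈ b k, α < β ∧ N α β) ∧
    ∀ σ : Set.Iio ρ, ∀ k0 < κ.ord, ∃ k, k0 ≤ k ∧ k < κ.ord ∧ Hi κ N Q σ (b k)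
termination_by ρ
decreasing_by exact σ.2

variable {N : Ordinal.{0} → Ordinal.{0} → Prop} {Q : Set Ordinal.{0} → Prop}

lemma hi_iff (ρ : Ordinal.{0}) (X : Set Ordinal.{0}) : Hi κ N Q ρ X ↔
    Q X ∧ ∃ b : Ordinal.{0} → Set Ordinal.{0}, (∀ k < κ.ord, b k ⊆ X) ∧
    (∀ l k, l < k → k < κ.ord → ∀ α ∈ b l, ∀ β ∈ b k, α < β ∧ N α β) ∧
    ∀ σ < ρ, ∀ k0 < κ.ord, ∃ k, k0 ≤ k ∧ k < κ.ord ∧ Hi κ N Q σ (b k) := by
  rw [Hi]
  constructor
  · rintro ⟨h1, b, h2, h3, h4⟩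
    exact ⟨h1, b, h2, h3, fun σ hσ => h4 ⟨σ, hσ⟩⟩
  · rintro ⟨h1, b, h2, h3, h4⟩
    exact ⟨h1, b, h2, h3, fun σ => h4 σ σ.2⟩

lemma hi_Q {ρ : Ordinal.{0}} {X : Set Ordinal.{0}} (h : Hi κ N Q ρ X) : Q X :=
  ((hi_iff ρ X).1 h).1

lemma hi_zero {X : Set Ordinal.{0}} (h : Q X) : Hi κ N Q 0 X := by
  rw [hi_iff]
  refine ⟨h, fun _ => ∅, fun _ _ => Set.empty_subset _, ?_, ?_⟩
  · intro l k _ _ α hα
    exact absurd hα (Set.notMem_empty α)
  · intro σ hσ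
    exact absurd hσ (not_lt.2 zero_le)

lemma hi_anti {σ ρ : Ordinal.{0}} (hσ : σ ≤ ρ) {X : Set Ordinal.{0}} (h : Hi κ N Q ρ X) :
    Hi κ N Q σ X := by
  rw [hi_iff] at h ⊢
  obtain ⟨h1, b, h2, h3, h4⟩ := h
  exact ⟨h1, b, h2, h3, fun τ hτ => h4 τ (hτ.trans_le hσ)⟩

lemma hi_mono (hQ : Fam Q) {ρ : Ordinal.{0}} {X X' : Set Ordinal.{0}} (hX : X ⊆ X')
    (h : Hi κ N Q ρ X) : Hi κ N Q ρ X' := by
  rw [hi_iff] at h ⊢
  obtain ⟨h1, b, h2, h3, h4⟩ := h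
  exact ⟨hQ.mono _ _ hX h1, b, fun k hk => (h2 k hk).trans hX, h3, h4⟩

lemma hi_of_blocks (hκ : κ.IsRegular) (hQ : Fam Q) {ρ : Ordinal.{0}} (hρ : 0 < ρ)
    {X : Set Ordinal.{0}} (b : Ordinal.{0} → Set Ordinal.{0}) (h2 : ∀ k < κ.ord, b k ⊆ X)
    (h3 : ∀ l k, l < k → k < κ.ord → ∀ α ∈ b l, ∀ β ∈ b k, α < β ∧ N α β)
    (h4 : ∀ σ < ρ, ∀ k0 < κ.ord, ∃ k, k0 ≤ k ∧ k < κ.ord ∧ Hi κ N Q σ (b k)) :
    Hi κ N Q ρ X := by
  rw [hi_iff]
  have hκpos : (0 : Ordinal.{0}) < κ.ord := by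
    have := hκ.pos
    simpa using this
  obtain ⟨k, -, hk, hk'⟩ := h4 0 hρ 0 hκpos
  exact ⟨hQ.mono _ _ (h2 k hk) (hi_Q hk'), b, h2, h3, h4⟩

lemma hi_union (hκ : κ.IsRegular) (hQ : Fam Q) (ρ : Ordinal.{0}) :
    ∀ X X' : Set Ordinal.{0}, Hi κ N Q ρ (X ∪ X') → Hi κ N Q ρ X ∨ Hi κ N Q ρ X' := by
  induction ρ using WellFoundedLT.induction with
  | _ ρ ih =>
    intro X X' h
    rcases (zero_le (a := ρ)).eq_or_lt with h0 | hρ
    · subst h0
      rcases hQ.union X X' (hi_Q h) with h1 | h1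
      · exact Or.inl (hi_zero h1)
      · exact Or.inr (hi_zero h1)
    · rw [hi_iff] at h
      obtain ⟨-, b, h2, h3, h4⟩ := h
      by_cases hX : ∀ σ < ρ, ∀ k0 < κ.ord, ∃ k, k0 ≤ k ∧ k < κ.ord ∧ Hi κ N Q σ (b k ∩ X)
      · left
        exact hi_of_blocks hκ hQ hρ (fun k => b k ∩ X) (fun k _ => Set.inter_subset_right)
          (fun l k hlk hk α hα β hβ => h3 l k hlk hk α hα.1 β hβ.1) hX
      · right
        push Not at hX
        obtain ⟨σ0, hσ0, k1, hk1, hX⟩ := hX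
        refine hi_of_blocks hκ hQ hρ (fun k => b k ∩ X') (fun k _ => Set.inter_subset_right)
          (fun l k hlk hk α hα β hβ => h3 l k hlk hk α hα.1 β hβ.1) ?_
        intro σ hσ k0 hk0
        obtain ⟨k, hk, hkκ, hk'⟩ := h4 (max σ σ0) (max_lt hσ hσ0) (max k0 k1) (max_lt hk0 hk1)
        refine ⟨k, (le_max_left _ _).trans hk, hkκ, ?_⟩
        have h5 : b k = (b k ∩ X) ∪ (b k ∩ X') := by
          rw [← Set.inter_union_distrib_left]
          exact (Set.inter_eq_left.2 (h2 k hkκ)).symm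
        rw [h5] at hk'
        rcases ih _ (max_lt hσ hσ0) _ _ hk' with h6 | h6
        · exact absurd (hi_anti (le_max_right _ _) h6) (hX k ((le_max_right _ _).trans hk) hkκ)
        · exact hi_anti (le_max_left _ _) h6

lemma fam_hi (hκ : κ.IsRegular) (hQ : Fam Q) (ρ : Ordinal.{0}) : Fam (Hi κ N Q ρ) :=
  ⟨fun _ _ hX h => hi_mono hQ hX h, hi_union hκ hQ ρ, fun X h => hQ.nonempty X (hi_Q h)⟩

/-- The sets of the hierarchy contain long `N`-cliques. -/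
lemma hi_set (hκ : κ.IsRegular) (hQ : Fam Q) (γ : Ordinal.{0}) : γ < L κ →
    ∀ X, Hi κ N Q γ X → ∃ f : Ordinal.{0} → Ordinal.{0}, (∀ a < γ, f a ∈ X) ∧
      ∀ a b, a < b → b < γ → f a < f b ∧ N (f a) (f b) := by
  classical
  have hκpos : (0 : Ordinal.{0}) < κ.ord := by
    have := hκ.pos
    simpa using this
  have hκlim : Order.IsSuccLimit κ.ord := isSuccLimit_ord hκ.aleph0_le
  induction γ using WellFoundedLT.induction with
  | _ γ ih =>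
    intro hγ X hX
    rw [hi_iff] at hX
    obtain ⟨-, b, h2, h3, h4⟩ := hX
    rcases zero_or_succ_or_isSuccLimit γ with h0 | ⟨δ, hδ⟩ | hlim
    · subst h0
      refine ⟨fun _ => 0, ?_, ?_⟩
      · intro a ha
        exact absurd ha (not_lt.2 zero_le)
      · intro a b _ hb
        exact absurd hb (not_lt.2 zero_le)
    · have hδγ : δ < γ := by rw [← hδ]; exact Order.lt_succ δ
      have hlt : ∀ a, a < γ → a < δ ∨ a = δ := by
        intro a ha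
        rw [← hδ] at ha
        exact (Order.lt_succ_iff.1 ha).lt_or_eq
      obtain ⟨k, -, hk, hk'⟩ := h4 δ hδγ 0 hκpos
      obtain ⟨k2, hk2, hk2', hk2''⟩ := h4 δ hδγ (Order.succ k) (hκlim.succ_lt hk)
      obtain ⟨f0, hf0, hf0'⟩ := ih δ hδγ (hδγ.trans hγ) _ hk'
      obtain ⟨z, hz⟩ := hQ.nonempty _ (hi_Q hk2'')
      refine ⟨fun a => if a < δ then f0 a else z, ?_, ?_⟩
      · intro a ha
        dsimp only
        split_ifs with hc
        · exact h2 k hk (hf0 a hc)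
        · exact h2 k2 hk2' hz
      · intro a c hac hc
        dsimp only
        rcases hlt c hc with hc' | hc'
        · rw [if_pos (hac.trans hc'), if_pos hc']
          exact hf0' a c hac hc'
        · subst hc'
          rw [if_pos hac, if_neg (lt_irrefl _)]
          exact h3 k k2 (Order.succ_le_iff.1 hk2) hk2' _ (hf0 a hac) _ hz
    · have hγ0 : 0 < γ := hlim.bot_lt
      obtain ⟨e, he, he'⟩ := exists_enum hγ hγ0
      have hblock : ∀ m < κ.ord, ∀ k0 < κ.ord, ∃ k, k0 ≤ k ∧ k < κ.ord ∧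
          ∃ F : Ordinal.{0} → Ordinal.{0}, (∀ a < Order.succ (e m), F a ∈ b k) ∧
            ∀ a c, a < c → c < Order.succ (e m) → F a < F c ∧ N (F a) (F c) := by
        intro m hm k0 hk0
        have hem : Order.succ (e m) < γ := hlim.succ_lt (he m)
        obtain ⟨k, hk, hk', hk''⟩ := h4 _ hem k0 hk0
        obtain ⟨F, hF, hF'⟩ := ih _ hem (hem.trans hγ) _ hk''
        exact ⟨k, hk, hk', F, hF, hF'⟩
      choose! nx hn1 hn2 F hF hF' using hblock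
      obtain ⟨s, hs⟩ := rec_seq hκ κ.ord le_rfl (fun m ξ => Order.succ (nx m ξ))
        (fun m hm ξ hξ => hκlim.succ_lt (hn2 m hm ξ hξ)) 0 hκpos
      have hKex : ∀ i < γ, ∃ k, i ≤ e k ∧ k < κ.ord := by
        intro i hi
        obtain ⟨k, hk, hk'⟩ := he' i hi
        exact ⟨k, hk'.ge, hk⟩
      set K : Ordinal.{0} → Ordinal.{0} := fun i => sInf {k | i ≤ e k} with hK
      have hK1 : ∀ i < γ, i ≤ e (K i) ∧ K i < κ.ord := by
        intro i hi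
        obtain ⟨k, hk, hk'⟩ := hKex i hi
        have hne : {k | i ≤ e k}.Nonempty := ⟨k, hk⟩
        exact ⟨csInf_mem hne, (csInf_le' (show k ∈ {k | i ≤ e k} from hk)).trans_lt hk'⟩
      have hK2 : ∀ i j, i < j → j < γ → K i ≤ K j := by
        intro i j hij hj
        exact csInf_le' (show K j ∈ {k | i ≤ e k} from hij.le.trans (hK1 j hj).1)
      refine ⟨fun i => F (K i) (s (K i)) i, ?_, ?_⟩
      · intro a ha
        obtain ⟨g1, g2⟩ := hK1 a ha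
        have g3 := (hs _ g2).1
        exact h2 _ (hn2 _ g2 _ g3) (hF (K a) g2 (s (K a)) g3 a (Order.lt_succ_iff.2 g1))
      · intro a c hac hc
        have ha := hac.trans hc
        obtain ⟨g1, g2⟩ := hK1 a ha
        obtain ⟨g1', g2'⟩ := hK1 c hc
        have g3 := (hs _ g2).1
        have g3' := (hs _ g2').1
        rcases (hK2 a c hac hc).eq_or_lt with heq | hlt
        · dsimp only
          rw [heq]
          exact hF' (K c) g2' (s (K c)) g3' a c hac (Order.lt_succ_iff.2 g1')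
        · have g5 := hF (K a) g2 (s (K a)) g3 a (Order.lt_succ_iff.2 g1)
          have g6 := hF (K c) g2' (s (K c)) g3' c (Order.lt_succ_iff.2 g1')
          refine h3 _ _ ?_ (hn2 _ g2' _ g3') _ g5 _ g6
          have g7 := (hs _ g2').2.2 _ hlt
          exact (Order.succ_le_iff.1 g7).trans_le (hn1 _ g2' _ g3')

end families

section closure

variable {κ : Cardinal.{0}}

lemma pairing (hκ : ℵ₀ ≤ κ) : ∃ p q : Ordinal.{0} → Ordinal.{0},
    (∀ j < κ.ord, p j < κ.ord ∧ q j < κ.ord) ∧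
    ∀ a < κ.ord, ∀ b < κ.ord, ∀ k0 < κ.ord, ∃ j, k0 ≤ j ∧ j < κ.ord ∧ p j = a ∧ q j = b := by
  classical
  have h1 : #(Set.Iio κ.ord) = #((Set.Iio κ.ord × Set.Iio κ.ord) × Set.Iio κ.ord) := by
    have h2 : ℵ₀ ≤ #(Set.Iio κ.ord) := by
      rw [Cardinal.mk_Iio_ordinal, Cardinal.card_ord]
      exact Cardinal.aleph0_le_lift.2 hκ
    rw [← Cardinal.mul_def, ← Cardinal.mul_def, Cardinal.mul_eq_self h2,
      Cardinal.mul_eq_self h2]
  obtain ⟨e⟩ := Cardinal.eq.1 h1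
  refine ⟨fun j => if h : j ∈ Set.Iio κ.ord then ((e ⟨j, h⟩).1.1 : Ordinal) else 0,
    fun j => if h : j ∈ Set.Iio κ.ord then ((e ⟨j, h⟩).1.2 : Ordinal) else 0, ?_, ?_⟩
  · intro j hj
    dsimp only
    rw [dif_pos (show j ∈ Set.Iio κ.ord from hj), dif_pos (show j ∈ Set.Iio κ.ord from hj)]
    exact ⟨(e ⟨j, hj⟩).1.1.2, (e ⟨j, hj⟩).1.2.2⟩
  · intro a ha b hb k0 hk0
    by_contra hcon
    push Not at hcon
    have h3 : ∀ c : Set.Iio κ.ord, (e.symm ((⟨a, ha⟩, ⟨b, hb⟩), c) : Ordinal) < k0 := by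
      intro c
      by_contra h4
      refine hcon _ (not_lt.1 h4) (e.symm ((⟨a, ha⟩, ⟨b, hb⟩), c)).2 ?_ ?_
      · rw [dif_pos (e.symm ((⟨a, ha⟩, ⟨b, hb⟩), c)).2]
        simp
      · rw [dif_pos (e.symm ((⟨a, ha⟩, ⟨b, hb⟩), c)).2]
        simp
    have h5 : Function.Injective (fun c : Set.Iio κ.ord =>
        (⟨(e.symm ((⟨a, ha⟩, ⟨b, hb⟩), c) : Ordinal), h3 c⟩ : Set.Iio k0)) := by
      intro c c' hcc
      have h6 := congrArg Subtype.val hcc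
      have h7 := e.symm.injective (Subtype.ext h6)
      exact (Prod.ext_iff.1 h7).2
    have h8 := Cardinal.mk_le_of_injective h5
    rw [Cardinal.mk_Iio_ordinal, Cardinal.mk_Iio_ordinal, Cardinal.card_ord,
      Cardinal.lift_le] at h8
    exact absurd (lt_ord.1 hk0) (not_lt.2 h8)

lemma exists_enum_cof (hκ : ℵ₀ ≤ κ) {γ : Ordinal.{0}} (hγ : γ < L κ) (h0 : 0 < γ) :
    ∃ e : Ordinal.{0} → Ordinal.{0}, (∀ k, e k < γ) ∧
      ∀ i < γ, ∀ k0 < κ.ord, ∃ k, k0 ≤ k ∧ k < κ.ord ∧ e k = i := by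
  obtain ⟨e, he, he'⟩ := exists_enum hγ h0
  obtain ⟨p, q, hpq, hpq'⟩ := pairing hκ
  refine ⟨fun k => e (q k), fun k => he _, ?_⟩
  intro i hi k0 hk0
  obtain ⟨b, hb, hb'⟩ := he' i hi
  obtain ⟨j, h1, h2, -, h3⟩ := hpq' b hb b hb k0 hk0
  refine ⟨j, h1, h2, ?_⟩
  dsimp only
  rw [h3, hb']

/-- closure under short unions and `κ` many operations -/
noncomputable def posi (s : Ordinal.{0} → Ordinal.{0} → Ordinal.{0})
    (H : Ordinal.{0} → (Ordinal.{0} → Set Ordinal.{0}) → Set Ordinal.{0}) (η : Ordinal.{0}) :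
    Set Ordinal.{0} :=
  H η (fun l => open Classical in if _h : s η l < η then posi s H (s η l) else ∅)
termination_by η
decreasing_by assumption

/-- `M` has at most `κ` elements, is closed under short unions and the operations `nx`. -/
structure Closed (κ : Cardinal.{0})
    (nx : Ordinal.{0} → Set Ordinal.{0} → Set Ordinal.{0} → Set Ordinal.{0})
    (M : Set (Set Ordinal.{0})) : Prop where
  small : ∃ pos : Ordinal.{0} → Set Ordinal.{0}, ∀ X ∈ M, ∃ η < κ.ord, pos η = X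
  union : ∀ ν < κ.ord, ∀ u : Ordinal.{0} → Set Ordinal.{0}, (∀ l < ν, u l ∈ M) →
    (⋃ l ∈ Set.Iio ν, u l) ∈ M
  op : ∀ X ∈ M, ∀ Y ∈ M, ∀ ι < κ.ord, nx ι X Y ∈ M

lemma exists_closed (hκ : κ.IsRegular) (hpow : ∀ μ < κ, κ ^ μ ≤ κ)
    (nx : Ordinal.{0} → Set Ordinal.{0} → Set Ordinal.{0} → Set Ordinal.{0})
    (X0 : Set Ordinal.{0}) : ∃ M, Closed κ nx M ∧ X0 ∈ M := by
  classical
  have hκpos : (0 : Ordinal.{0}) < κ.ord := by
    have := hκ.pos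
    simpa using this
  have hκlim : Order.IsSuccLimit κ.ord := isSuccLimit_ord hκ.aleph0_le
  have hκ1 : (1 : Ordinal.{0}) < κ.ord := by
    have := hκlim.succ_lt hκpos
    simpa using this
  have hκ2 : (2 : Ordinal.{0}) < κ.ord := by
    have := hκlim.succ_lt hκ1
    rwa [Order.succ_eq_add_one, one_add_one_eq_two] at this
  obtain ⟨p, q, hpq, hpq'⟩ := pairing hκ.aleph0_le
  have hfew := few hpow
  choose! e he using hfew
  set H : Ordinal.{0} → (Ordinal.{0} → Set Ordinal.{0}) → Set Ordinal.{0} := fun η V =>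
    if p η = 0 then ⋃ l ∈ Set.Iio (p (q (q η))), V l else
      if p η = 1 then nx (p (q η)) (V 0) (V 1) else X0 with hH
  set pos : Ordinal.{0} → Set Ordinal.{0} :=
    posi (fun η => e (p (q (q η))) (q (q (q η)))) H with hpos
  have key : ∀ ν < κ.ord, ∀ s : Ordinal.{0} → Ordinal.{0}, (∀ l < ν, s l < κ.ord) →
      ∀ a < κ.ord, ∀ ι < κ.ord, ∃ η < κ.ord, p η = a ∧ p (q η) = ι ∧ p (q (q η)) = ν ∧
        ∃ V : Ordinal.{0} → Set Ordinal.{0}, pos η = H η V ∧ ∀ l < ν, V l = pos (s l) := by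
    intro ν hν s hs a ha ι hι
    obtain ⟨x, hx, hx'⟩ := sup_lt hκ hν s hs
    obtain ⟨η1, hη1, hη1'⟩ := he ν hν s hs
    obtain ⟨r2, -, hr2, h3, h4⟩ := hpq' ν hν η1 hη1 0 hκpos
    obtain ⟨r1, -, hr1, h5, h6⟩ := hpq' ι hι r2 hr2 0 hκpos
    obtain ⟨η, hη, hη', h7, h8⟩ := hpq' a ha r1 hr1 (Order.succ x) (hκlim.succ_lt hx)
    refine ⟨η, hη', h7, by rw [h8, h5], by rw [h8, h6, h3],
      fun l => if _h : e (p (q (q η))) (q (q (q η))) l < η then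
        pos (e (p (q (q η))) (q (q (q η))) l) else ∅, ?_, ?_⟩
    · rw [hpos, posi]
    · intro l hl
      have h9 : s l = e ν η1 l := hη1' l hl
      have h10 : e (p (q (q η))) (q (q (q η))) l = s l := by
        rw [h8, h6, h3, h4, h9]
      have h11 : s l < η := (hx' l hl).trans_lt (Order.succ_le_iff.1 hη)
      dsimp only
      rw [h10, dif_pos h11]
  refine ⟨{X | ∃ η < κ.ord, pos η = X}, ⟨⟨pos, fun X hX => hX⟩, ?_, ?_⟩, ?_⟩
  · intro ν hν u hu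
    choose! s hs hs' using hu
    obtain ⟨η, hη, h1, -, h3, V, h4, h5⟩ := key ν hν s hs 0 hκpos 0 hκpos
    refine ⟨η, hη, ?_⟩
    rw [h4, hH]
    dsimp only
    rw [if_pos h1, h3]
    apply Set.iUnion₂_congr
    intro l hl
    rw [h5 l hl]
    exact hs' l hl
  · rintro X ⟨η1, hη1, rfl⟩ Y ⟨η2, hη2, rfl⟩ ι hι
    obtain ⟨η, hη, h1, h2, h3, V, h4, h5⟩ := key 2 hκ2 (fun l => if l = 0 then η1 else η2)
      (fun l _ => by split_ifs <;> assumption) 1 hκ1 ι hι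
    refine ⟨η, hη, ?_⟩
    rw [h4, hH]
    dsimp only
    rw [if_neg (by rw [h1]; exact one_ne_zero), if_pos h1, h2, h5 0 zero_lt_two,
      h5 1 one_lt_two]
    rw [if_pos rfl, if_neg one_ne_zero]
  · obtain ⟨η, hη, h1, h2, h3, V, h4, h5⟩ := key 0 hκpos (fun _ => 0)
      (fun l _ => hκpos) 2 hκ2 0 hκpos
    refine ⟨η, hη, ?_⟩
    rw [h4, hH]
    dsimp only
    rw [if_neg (by rw [h1]; exact two_ne_zero), if_neg (by rw [h1]; exact OfNat.ofNat_ne_one 2)]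

lemma closed_union2 (hκ : κ.IsRegular)
    {nx : Ordinal.{0} → Set Ordinal.{0} → Set Ordinal.{0} → Set Ordinal.{0}}
    {M : Set (Set Ordinal.{0})} (hM : Closed κ nx M) {X Y : Set Ordinal.{0}} (hX : X ∈ M)
    (hY : Y ∈ M) : X ∪ Y ∈ M := by
  classical
  have hκpos : (0 : Ordinal.{0}) < κ.ord := by
    have := hκ.pos
    simpa using this
  have hκlim : Order.IsSuccLimit κ.ord := isSuccLimit_ord hκ.aleph0_le
  have hκ2 : (2 : Ordinal.{0}) < κ.ord := by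
    have := hκlim.succ_lt (hκlim.succ_lt hκpos)
    rwa [Order.succ_eq_add_one, Order.succ_eq_add_one, zero_add, one_add_one_eq_two] at this
  have h1 := hM.union 2 hκ2 (fun l => if l = 0 then X else Y)
    (fun l _ => by split_ifs <;> assumption)
  have h2 : (⋃ l ∈ Set.Iio (2 : Ordinal.{0}), (if l = 0 then X else Y)) = X ∪ Y := by
    ext α
    simp only [Set.mem_iUnion, Set.mem_Iio, exists_prop, Set.mem_union]
    constructor
    · rintro ⟨l, hl, h3⟩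
      split_ifs at h3 with h4
      · exact Or.inl h3
      · exact Or.inr h3
    · rintro (h3 | h3)
      · exact ⟨0, zero_lt_two, by rw [if_pos rfl]; exact h3⟩
      · exact ⟨1, one_lt_two, by rw [if_neg one_ne_zero]; exact h3⟩
  rw [h2] at h1
  exact h1

/-- Two families of operations in one. -/
lemma exists_combine (hκ : κ.IsRegular)
    (nx1 nx2 : Ordinal.{0} → Set Ordinal.{0} → Set Ordinal.{0} → Set Ordinal.{0}) :
    ∃ nx : Ordinal.{0} → Set Ordinal.{0} → Set Ordinal.{0} → Set Ordinal.{0},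
      ∀ M, Closed κ nx M → Closed κ nx1 M ∧ Closed κ nx2 M := by
  classical
  have hκpos : (0 : Ordinal.{0}) < κ.ord := by
    have := hκ.pos
    simpa using this
  have hκlim : Order.IsSuccLimit κ.ord := isSuccLimit_ord hκ.aleph0_le
  have hκ1 : (1 : Ordinal.{0}) < κ.ord := by
    have := hκlim.succ_lt hκpos
    simpa using this
  obtain ⟨p, q, hpq, hpq'⟩ := pairing hκ.aleph0_le
  refine ⟨fun ι X Y => if p ι = 0 then nx1 (q ι) X Y else nx2 (q ι) X Y, fun M hM =>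
    ⟨⟨hM.small, hM.union, ?_⟩, ⟨hM.small, hM.union, ?_⟩⟩⟩
  · intro X hX Y hY ι hι
    obtain ⟨r, -, hr, h1, h2⟩ := hpq' 0 hκpos ι hι 0 hκpos
    have := hM.op X hX Y hY r hr
    rwa [if_pos h1, h2] at this
  · intro X hX Y hY ι hι
    obtain ⟨r, -, hr, h1, h2⟩ := hpq' 1 hκ1 ι hι 0 hκpos
    have := hM.op X hX Y hY r hr
    rwa [if_neg (by rw [h1]; exact one_ne_zero), h2] at this

end closure

section core

variable {κ : Cardinal.{0}} {D : Type}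
  {E : Ordinal.{0} → Ordinal.{0} → Prop} {c : Ordinal.{0} → Ordinal.{0} → D}

/-- The pairs of colour `i` outside `E`. -/
def Conn {D : Type} (E : Ordinal.{0} → Ordinal.{0} → Prop) (c : Ordinal.{0} → Ordinal.{0} → D)
    (i : D) (α β : Ordinal.{0}) : Prop :=
  ¬ E α β ∧ c α β = i

/-- Bounded parts of unbounded subsets of `Z` are in `Q`. -/
def Dens (κ : Cardinal.{0}) (Q : Set Ordinal.{0} → Prop) (Z : Set Ordinal.{0}) : Prop :=
  ∀ T ⊆ Z, Unb (L κ) T → ∃ δ < L κ, Q (T ∩ Set.Iio δ)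

/-- `E` misses some interval. -/
def Gap (κ : Cardinal.{0}) (E : Ordinal.{0} → Ordinal.{0} → Prop) : Prop :=
  ∀ g : Ordinal.{0} → Ordinal.{0}, (∀ ζ < L κ, g ζ < L κ) → ∀ Z, Unb (L κ) Z →
    ∃ ζ < L κ, ∃ β ∈ Z, g ζ < β ∧ β < L κ ∧ ∀ α, ζ ≤ α → α < g ζ → ¬ E α β

/-- Every bounded large set has `κ` subsets such that every `β` above it has a constant colour
on a large one of them. -/
def UProp (κ : Cardinal.{0}) {D : Type} (t : Ordinal.{0} → Ordinal.{0} → D) : Prop :=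
  ∀ Q : Set Ordinal.{0} → Prop, Fam Q → ∀ F, (∃ δ < L κ, F ⊆ Set.Iio δ) → Q F →
    ∃ w : Ordinal.{0} → Set Ordinal.{0}, ∀ β < L κ, F ⊆ Set.Iio β →
      ∃ η < κ.ord, w η ⊆ F ∧ Q (w η) ∧ ∃ i, ∀ α ∈ w η, t α β = i

/-- `β` is generic for `M` and `E` misses it on `Z`. -/
structure Gd (κ : Cardinal.{0}) (E : Ordinal.{0} → Ordinal.{0} → Prop) (M : Set (Set Ordinal.{0}))
    (β : Ordinal.{0}) (Z : Set Ordinal.{0}) : Prop where
  mem : Z ∈ M
  bmem : β ∈ Z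
  lt : β < L κ
  gen : ∀ T ∈ M, β ∈ T → Unb (L κ) T
  free : ∀ F ∈ M, F ⊆ Z → (∃ δ < L κ, F ⊆ Set.Iio δ) → ∀ α ∈ F, α < β ∧ ¬ E α β

lemma lim_L (hκ : κ.IsRegular) : Order.IsSuccLimit (L κ) :=
  isSuccLimit_ord (hκ.aleph0_le.trans (Order.le_succ κ))

lemma gap_of_small (hκ : κ.IsRegular) {θ : Ordinal.{0}} (hθ : θ < L κ) (hE : Small κ θ E) :
    Gap κ E := by
  classical
  intro g hg Z hZ
  have hreg : (Order.succ κ).IsRegular := isRegular_succ hκ.aleph0_le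
  have hL0 : (0 : Ordinal.{0}) < L κ := (lim_L hκ).bot_lt
  obtain ⟨s, hs⟩ := rec_seq hreg θ hθ.le (fun _ ξ => g ξ) (fun _ _ ξ hξ => hg ξ hξ) 0 hL0
  obtain ⟨x, hx, hx'⟩ := sup_lt hreg hθ (fun a => g (s a)) (fun a ha => hg _ (hs a ha).1)
  obtain ⟨β, hβ, hxβ, hβL⟩ := hZ x hx
  by_contra hcon
  push Not at hcon
  have h1 : ∀ a < θ, ∃ α, s a ≤ α ∧ α < g (s a) ∧ E α β := by
    intro a ha
    exact hcon (s a) (hs a ha).1 β hβ ((hx' a ha).trans_lt hxβ) hβL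
  choose! f hf1 hf2 hf3 using h1
  refine hE β hβL ⟨f, fun a ha => ⟨?_, hf3 a ha⟩, fun a b hab hb => ?_⟩
  · exact (hf2 a ha).trans ((hx' a ha).trans_lt hxβ)
  · exact ((hf2 a (hab.trans hb)).trans_le ((hs b hb).2.2 a hab)).trans_le (hf1 b hb)

/-- There are a closed family, a generic `β` and a part of `Z` on which `E` misses `β`. -/
lemma exists_good (hκ : κ.IsRegular) (hpow : ∀ μ < κ, κ ^ μ ≤ κ) (hE : Gap κ E)
    (nx : Ordinal.{0} → Set Ordinal.{0} → Set Ordinal.{0} → Set Ordinal.{0})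
    (Z : Set Ordinal.{0}) (hZ : Unb (L κ) Z) :
    ∃ M, Closed κ nx M ∧ ∃ β, ∃ Z' ⊆ Z, Gd κ E M β Z' := by
  classical
  have hreg : (Order.succ κ).IsRegular := isRegular_succ hκ.aleph0_le
  have hlim := lim_L hκ
  have hκL : κ.ord < L κ := by
    unfold L
    exact ord_lt_ord.2 (Order.lt_succ κ)
  have h1 := fun ζ => exists_closed hκ hpow nx (Z ∩ Set.Ici ζ)
  choose M hM hZM using h1
  have h2 : ∀ ζ < L κ, ∃ g < L κ, ζ ≤ g ∧ ∀ X ∈ M ζ,
      (¬ Unb (L κ) X → ∀ α ∈ X, α < L κ → α ≤ g) ∧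
      ((∃ δ < L κ, X ⊆ Set.Iio δ) → X ⊆ Set.Iio g) := by
    intro ζ hζ
    obtain ⟨pos, hpos⟩ := (hM ζ).small
    have h3 : ∀ η < κ.ord, ∃ b < L κ, (¬ Unb (L κ) (pos η) → ∀ α ∈ pos η, α < L κ → α ≤ b) ∧
        ((∃ δ < L κ, pos η ⊆ Set.Iio δ) → pos η ⊆ Set.Iio b) := by
      intro η hη
      have h4 : ∃ b < L κ, (¬ Unb (L κ) (pos η) → ∀ α ∈ pos η, α < L κ → α ≤ b) := by
        by_cases hu : Unb (L κ) (pos η)
        · exact ⟨0, hlim.bot_lt, fun h => absurd hu h⟩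
        · obtain ⟨b, hb, hb'⟩ := not_unb hu
          exact ⟨b, hb, fun _ => hb'⟩
      have h5 : ∃ b < L κ, ((∃ δ < L κ, pos η ⊆ Set.Iio δ) → pos η ⊆ Set.Iio b) := by
        by_cases hu : ∃ δ < L κ, pos η ⊆ Set.Iio δ
        · obtain ⟨b, hb, hb'⟩ := hu
          exact ⟨b, hb, fun _ => hb'⟩
        · exact ⟨0, hlim.bot_lt, fun h => absurd h hu⟩
      obtain ⟨b, hb, hb'⟩ := h4
      obtain ⟨c, hc, hc'⟩ := h5
      exact ⟨max b c, max_lt hb hc, fun h α hα hαL => (hb' h α hα hαL).trans (le_max_left _ _),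
        fun h α hα => (Set.mem_Iio.1 (hc' h hα)).trans_le (le_max_right _ _)⟩
    choose! b hb hb1 hb2 using h3
    obtain ⟨g, hg, hg'⟩ := sup_lt hreg hκL b hb
    refine ⟨max g ζ, max_lt hg hζ, le_max_right _ _, fun X hX => ?_⟩
    obtain ⟨η, hη, rfl⟩ := hpos X hX
    exact ⟨fun h α hα hαL => (hb1 η hη h α hα hαL).trans ((hg' η hη).trans (le_max_left _ _)),
      fun h α hα => (Set.mem_Iio.1 (hb2 η hη h hα)).trans_le
        ((hg' η hη).trans (le_max_left _ _))⟩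
  choose! g hg1 hg2 hg3 using h2
  obtain ⟨ζ, hζ, β, hβZ, hgβ, hβL, hEβ⟩ := hE g hg1 Z hZ
  refine ⟨M ζ, hM ζ, β, Z ∩ Set.Ici ζ, Set.inter_subset_left, hZM ζ,
    ⟨hβZ, (hg2 ζ hζ).trans hgβ.le⟩, hβL, ?_, ?_⟩
  · intro T hT hβT
    by_contra hu
    exact absurd hgβ (not_lt.2 ((hg3 ζ hζ T hT).1 hu β hβT hβL))
  · intro F hF hFZ hb α hα
    have h3 := (hg3 ζ hζ F hF).2 hb hα
    exact ⟨(Set.mem_Iio.1 h3).trans hgβ, hEβ α (hFZ hα).2 h3⟩

/-- recursion for the blocks -/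
noncomputable def blk (nb : Set Ordinal.{0} → Ordinal.{0} → Set Ordinal.{0}) (k : Ordinal.{0}) :
    Set Ordinal.{0} :=
  nb (⋃ l : Set.Iio k, blk nb l) k
termination_by k
decreasing_by exact l.2

/-- the operations used to continue a construction -/
def stepOp (N : Ordinal.{0} → Ordinal.{0} → Prop) (_ : Ordinal.{0}) (X Y : Set Ordinal.{0}) :
    Set Ordinal.{0} :=
  {ξ | ξ ∈ Y ∧ ∀ α ∈ X, α < ξ ∧ N α ξ}

lemma run (hκ : κ.IsRegular) {Q : Set Ordinal.{0} → Prop} (hQ : Fam Q)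
    {N : Ordinal.{0} → Ordinal.{0} → Prop} (ρ : Ordinal.{0}) (hρ0 : 0 < ρ) (hρ : ρ < L κ)
    {M : Set (Set Ordinal.{0})} (hM : Closed κ (stepOp N) M) {β : Ordinal.{0}}
    {Z : Set Ordinal.{0}} (hG : Gd κ E M β Z)
    (hrun : ∀ T ∈ M, T ⊆ Z → β ∈ T → ∀ σ < ρ, ∃ F ∈ M, (∃ δ < L κ, F ⊆ Set.Iio δ) ∧ F ⊆ T ∧
      Hi κ N Q σ F ∧ ∀ α ∈ F, N α β) :
    Hi κ N Q ρ (Z ∩ Set.Iio β) := by
  classical
  have hκpos : (0 : Ordinal.{0}) < κ.ord := by
    have := hκ.pos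
    simpa using this
  obtain ⟨e, he, he'⟩ := exists_enum_cof hκ.aleph0_le hρ hρ0
  have hnext : ∀ U ∈ M, (∀ α ∈ U, α < β ∧ N α β) → ∀ k < κ.ord,
      ∃ b, U ∪ b ∈ M ∧ (∀ α ∈ U ∪ b, α < β ∧ N α β) ∧ Hi κ N Q (e k) b ∧ b ⊆ Z ∧
        (∀ α ∈ U, ∀ ξ ∈ b, α < ξ ∧ N α ξ) ∧ ∀ α ∈ b, α < β := by
    intro U hU hUβ k hk
    obtain ⟨F, hFM, hFb, hFT, hFH, hFβ⟩ := hrun (stepOp N 0 U Z)
      (hM.op U hU Z hG.mem 0 hκpos) (fun ξ hξ => hξ.1) ⟨hG.bmem, hUβ⟩ (e k) (he k)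
    have h1 : ∀ α ∈ F, α < β := fun α hα =>
      (hG.free F hFM (hFT.trans fun ξ hξ => hξ.1) hFb α hα).1
    refine ⟨F, closed_union2 hκ hM hU hFM, ?_, hFH, hFT.trans fun ξ hξ => hξ.1,
      fun α hα ξ hξ => (hFT hξ).2 α hα, h1⟩
    rintro α (hα | hα)
    · exact hUβ α hα
    · exact ⟨h1 α hα, hFβ α hα⟩
  choose! nb hb1 hb2 hb3 hb4 hb5 hb6 using hnext
  set bl := blk nb with hbl
  have hbleq : ∀ k, bl k = nb (⋃ l ∈ Set.Iio k, bl l) k := by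
    intro k
    rw [hbl, blk]
    congr 1
    ext α
    simp
  have hU : ∀ k < κ.ord, (⋃ l ∈ Set.Iio k, bl l) ∈ M ∧
      ∀ α ∈ ⋃ l ∈ Set.Iio k, bl l, α < β ∧ N α β := by
    intro k
    induction k using WellFoundedLT.induction with
    | _ k ih =>
      intro hk
      have h1 : ∀ l < k, (⋃ m ∈ Set.Iio l, bl m) ∪ bl l ∈ M ∧
          ∀ α ∈ (⋃ m ∈ Set.Iio l, bl m) ∪ bl l, α < β ∧ N α β := by
        intro l hl
        obtain ⟨h2, h3⟩ := ih l hl (hl.trans hk)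
        have h4 := hb1 _ h2 h3 l (hl.trans hk)
        have h5 := hb2 _ h2 h3 l (hl.trans hk)
        rw [← hbleq l] at h4 h5
        exact ⟨h4, h5⟩
      constructor
      · have h2 := hM.union k hk (fun l => (⋃ m ∈ Set.Iio l, bl m) ∪ bl l)
          (fun l hl => (h1 l hl).1)
        have h3 : (⋃ l ∈ Set.Iio k, ((⋃ m ∈ Set.Iio l, bl m) ∪ bl l)) =
            ⋃ l ∈ Set.Iio k, bl l := by
          ext α
          simp only [Set.mem_iUnion, Set.mem_union, Set.mem_Iio, exists_prop]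
          constructor
          · rintro ⟨l, hl, (⟨m, hm, hα⟩ | hα)⟩
            · exact ⟨m, hm.trans hl, hα⟩
            · exact ⟨l, hl, hα⟩
          · rintro ⟨l, hl, hα⟩
            exact ⟨l, hl, Or.inr hα⟩
        rw [← h3]
        exact h2
      · intro α hα
        simp only [Set.mem_iUnion, Set.mem_Iio, exists_prop] at hα
        obtain ⟨l, hl, hα⟩ := hα
        exact (h1 l hl).2 α (Or.inr hα)
  refine hi_of_blocks hκ hQ hρ0 bl ?_ ?_ ?_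
  · intro k hk α hα
    obtain ⟨h2, h3⟩ := hU k hk
    rw [hbleq k] at hα
    exact ⟨hb4 _ h2 h3 k hk hα, hb6 _ h2 h3 k hk α hα⟩
  · intro l k hlk hk α hα ξ hξ
    obtain ⟨h2, h3⟩ := hU k hk
    rw [hbleq k] at hξ
    refine hb5 _ h2 h3 k hk α ?_ ξ hξ
    simp only [Set.mem_iUnion, Set.mem_Iio, exists_prop]
    exact ⟨l, hlk, hα⟩
  · intro σ hσ k0 hk0
    obtain ⟨k, hk, hk', hek⟩ := he' σ hσ k0 hk0
    obtain ⟨h2, h3⟩ := hU k hk'
    refine ⟨k, hk, hk', ?_⟩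
    have := hb3 _ h2 h3 k hk'
    rw [← hbleq k, hek] at this
    exact this

lemma hi_sub {N : Ordinal.{0} → Ordinal.{0} → Prop} {Q Q' : Set Ordinal.{0} → Prop}
    (hQ : ∀ X, Q X → Q' X) (ρ : Ordinal.{0}) : ∀ X, Hi κ N Q ρ X → Hi κ N Q' ρ X := by
  induction ρ using WellFoundedLT.induction with
  | _ ρ ih =>
    intro X h
    rw [hi_iff] at h ⊢
    obtain ⟨h1, b, h2, h3, h4⟩ := h
    refine ⟨hQ X h1, b, h2, h3, fun σ hσ k0 hk0 => ?_⟩
    obtain ⟨k, hk, hk', hk''⟩ := h4 σ hσ k0 hk0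
    exact ⟨k, hk, hk', ih σ hσ _ hk''⟩

/-- The colours outside `J` are out of reach for the families `S`. -/
def Restr (κ : Cardinal.{0}) {D : Type} (E : Ordinal.{0} → Ordinal.{0} → Prop)
    (c : Ordinal.{0} → Ordinal.{0} → D) (S : Ordinal.{0} → Set Ordinal.{0} → Prop)
    (Z : Set Ordinal.{0}) (J : Finset D) : Prop :=
  ∃ nx : Ordinal.{0} → Set Ordinal.{0} → Set Ordinal.{0} → Set Ordinal.{0},
    ∀ M, Closed κ nx M → ∀ β, ∀ Z' ⊆ Z, Gd κ E M β Z' →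
      ∃ T ∈ M, T ⊆ Z' ∧ β ∈ T ∧ ∃ ι < κ.ord, ∀ i ∉ J, ∀ F ∈ M,
        (∃ δ < L κ, F ⊆ Set.Iio δ) → S ι F → F ⊆ T → ¬ ∀ α ∈ F, Conn E c i α β

lemma Gd.sub {M : Set (Set Ordinal.{0})} {β : Ordinal.{0}} {Z T : Set Ordinal.{0}}
    (h : Gd κ E M β Z) (hT : T ∈ M) (hTZ : T ⊆ Z) (hβ : β ∈ T) : Gd κ E M β T :=
  ⟨hT, hβ, h.lt, h.gen, fun F hF hFT hb => h.free F hF (hFT.trans hTZ) hb⟩

lemma exists_pair_of_gap (hκ : κ.IsRegular) (hE : Gap κ E) (W : Set Ordinal.{0})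
    (hW : Unb (L κ) W) : ∃ α ∈ W, ∃ β ∈ W, α < β ∧ β < L κ ∧ ¬ E α β := by
  classical
  have hlim := lim_L hκ
  choose! g hg1 hg2 hg3 using hW
  obtain ⟨ζ, hζ, β, hβW, h1, h2, h3⟩ := hE (fun ζ => Order.succ (g ζ))
    (fun ζ hζ => hlim.succ_lt (hg3 ζ hζ)) W (fun ξ hξ => ⟨g ξ, hg1 ξ hξ, hg2 ξ hξ, hg3 ξ hξ⟩)
  exact ⟨g ζ, hg1 ζ hζ, β, hβW, (Order.lt_succ _).trans h1, h2,
    h3 _ (hg2 ζ hζ).le (Order.lt_succ _)⟩

/-- `c` is layered: outside `E` the pairs are covered by the unions of rectangles `U ν`, and on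
the `ν`-th layer `c` agrees with `h ν`. -/
structure Layers (κ : Cardinal.{0}) {D : Type} (E : Ordinal.{0} → Ordinal.{0} → Prop)
    (c : Ordinal.{0} → Ordinal.{0} → D) (θ : Ordinal.{0})
    (A B : Ordinal.{0} → Ordinal.{0} → Set Ordinal.{0})
    (h : Ordinal.{0} → Ordinal.{0} → Ordinal.{0} → D) : Prop where
  lt : θ < L κ
  uprop : ∀ ν < θ, UProp κ (h ν)
  cover : ∀ α β, α < β → β < L κ → ¬ E α β → ∃ ν < θ, (∃ j < κ.ord, α ∈ A ν j ∧ β ∈ B ν j) ∧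
    (∀ ν' < ν, ¬ ∃ j < κ.ord, α ∈ A ν' j ∧ β ∈ B ν' j) ∧ c α β = h ν α β

/-- Not all colours are out of reach. -/
lemma base_case (hκ : κ.IsRegular) (hpow : ∀ μ < κ, κ ^ μ ≤ κ) (hE : Gap κ E)
    {θ : Ordinal.{0}} {A B : Ordinal.{0} → Ordinal.{0} → Set Ordinal.{0}}
    {h : Ordinal.{0} → Ordinal.{0} → Ordinal.{0} → D} (hL : Layers κ E c θ A B h)
    (S : Ordinal.{0} → Set Ordinal.{0} → Prop)
    (hF : ∀ ι < κ.ord, Fam (S ι)) (Z : Set Ordinal.{0}) (hZ : Unb (L κ) Z)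
    (hd : ∀ ι < κ.ord, Dens κ (S ι) Z) (hr : Restr κ E c S Z ∅) : False := by
  classical
  have hreg : (Order.succ κ).IsRegular := isRegular_succ hκ.aleph0_le
  have hlim := lim_L hκ
  have hκL : κ.ord < L κ := by
    unfold L
    exact ord_lt_ord.2 (Order.lt_succ κ)
  have hκpos : (0 : Ordinal.{0}) < κ.ord := by
    have := hκ.pos
    simpa using this
  have hθ0 : 0 < θ := by
    obtain ⟨α, -, β, -, h1, h2, h3⟩ := exists_pair_of_gap hκ hE Z hZ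
    obtain ⟨ν, hν, -⟩ := hL.cover α β h1 h2 h3
    exact (zero_le (a := ν)).trans_lt hν
  -- bounds
  have heps : ∀ T : Set Ordinal.{0}, ∃ b < L κ, ∀ ν < θ, ∀ j < κ.ord,
      ¬ Unb (L κ) {α | α ∈ T ∧ α ∈ A ν j} → ∀ α ∈ T, α ∈ A ν j → α < L κ → α ≤ b := by
    intro T
    have h1 : ∀ ν < θ, ∃ b < L κ, ∀ j < κ.ord,
        ¬ Unb (L κ) {α | α ∈ T ∧ α ∈ A ν j} → ∀ α ∈ T, α ∈ A ν j → α < L κ → α ≤ b := by
      intro ν _
      have h2 : ∀ j < κ.ord, ∃ b < L κ,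
          ¬ Unb (L κ) {α | α ∈ T ∧ α ∈ A ν j} → ∀ α ∈ T, α ∈ A ν j → α < L κ → α ≤ b := by
        intro j _
        by_cases hv : Unb (L κ) {α | α ∈ T ∧ α ∈ A ν j}
        · exact ⟨0, hlim.bot_lt, fun h => absurd hv h⟩
        · obtain ⟨b, hb, hb'⟩ := not_unb hv
          exact ⟨b, hb, fun _ α h1 h2 h3 => hb' α ⟨h1, h2⟩ h3⟩
      choose! b hb1 hb2 using h2
      obtain ⟨s, hs, hs'⟩ := sup_lt hreg hκL b hb1
      exact ⟨s, hs, fun j hj hu α h3 h4 h5 => (hb2 j hj hu α h3 h4 h5).trans (hs' j hj)⟩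
    choose! b hb1 hb2 using h1
    obtain ⟨s, hs, hs'⟩ := sup_lt hreg hL.lt b hb1
    exact ⟨s, hs, fun ν hν j hj hu α h3 h4 h5 => (hb2 ν hν j hj hu α h3 h4 h5).trans (hs' ν hν)⟩
  choose eps heps1 heps2 using heps
  -- the bounded set of bad points
  set Rc : Set Ordinal.{0} → Set Ordinal.{0} := fun T =>
    {ξ | ξ ∈ T ∧ ∀ ν < θ, ∀ j < κ.ord, ξ ∈ B ν j → ¬ Unb (L κ) {α | α ∈ T ∧ α ∈ A ν j}} with hRc
  have hRcb : ∀ T, ¬ Unb (L κ) (Rc T) := by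
    intro T hu
    obtain ⟨α, ⟨hαT, hsα⟩, β, ⟨hβT, hsβ⟩, hαβ, hβL, hEαβ⟩ :=
      exists_pair_of_gap hκ hE {β | β ∈ Rc T ∧ eps T < β} (by
        intro ξ hξ
        obtain ⟨β, hβ, h1, h2⟩ := hu (max ξ (eps T)) (max_lt hξ (heps1 T))
        exact ⟨β, ⟨hβ, (le_max_right _ _).trans_lt h1⟩, (le_max_left _ _).trans_lt h1, h2⟩)
    obtain ⟨ν, hν, ⟨j, hj, hαj, hβj⟩, -⟩ := hL.cover α β hαβ hβL hEαβ
    have h1 := heps2 T ν hν j hj (hβT.2 ν hν j hj hβj) α hαT.1 hαj (hαβ.trans hβL)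
    exact absurd hsα (not_lt.2 h1)
  -- choice functions
  have hd' : ∀ ι < κ.ord, ∀ T ⊆ Z, Unb (L κ) T → ∃ δ < L κ, S ι (T ∩ Set.Iio δ) := hd
  choose! dl hdl1 hdl2 using hd'
  have hU' : ∀ ν < θ, ∀ ι < κ.ord, ∀ F, (∃ δ < L κ, F ⊆ Set.Iio δ) → S ι F →
      ∃ w : Ordinal.{0} → Set Ordinal.{0}, ∀ β < L κ, F ⊆ Set.Iio β →
      ∃ η < κ.ord, w η ⊆ F ∧ S ι (w η) ∧ ∃ i, ∀ α ∈ w η, h ν α β = i :=
    fun ν hν ι hι F hb hFQ => hL.uprop ν hν (S ι) (hF ι hι) F hb hFQ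
  choose! w hw using hU'
  obtain ⟨p, q, hpq, hpq'⟩ := pairing hκ.aleph0_le
  obtain ⟨e, he, he'⟩ := exists_enum hL.lt hθ0
  obtain ⟨nx0, hr⟩ := hr
  obtain ⟨nx1, h1⟩ := exists_combine hκ (fun _ X _ => Rc X)
    (fun ι X _ => {α | α ∈ X ∧ α ∈ A (e (p ι)) (q ι) ∧ eps X < α})
  obtain ⟨nx2, h2⟩ := exists_combine hκ (fun ι X _ => X ∩ Set.Iio (dl ι X))
    (fun ι X _ => w (e (p ι)) (p (q ι)) X (q (q ι)))
  obtain ⟨nx3, h3⟩ := exists_combine hκ nx1 nx2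
  obtain ⟨nx, h4⟩ := exists_combine hκ nx0 nx3
  obtain ⟨M, hM, β, Z', hZ', hG⟩ := exists_good hκ hpow hE nx Z hZ
  have hM0 := (h4 M hM).1
  have hM3 := (h4 M hM).2
  have hMa := (h1 M (h3 M hM3).1).1
  have hMb := (h1 M (h3 M hM3).1).2
  have hMc := (h2 M (h3 M hM3).2).1
  have hMd := (h2 M (h3 M hM3).2).2
  obtain ⟨T, hTM, hTZ', hβT, ι, hι, hno⟩ := hr M hM0 β Z' hZ' hG
  have hTZ : T ⊆ Z := hTZ'.trans hZ'
  -- the layer
  have h5 : β ∉ Rc T := fun h => hRcb T (hG.gen _ (hMa.op T hTM T hTM 0 hκpos) h)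
  have h6 : {ν | ν < θ ∧ ∃ j < κ.ord, β ∈ B ν j ∧ Unb (L κ) {α | α ∈ T ∧ α ∈ A ν j}}.Nonempty := by
    by_contra hcon
    rw [Set.not_nonempty_iff_eq_empty] at hcon
    refine h5 ⟨hβT, fun ν hν j hj hβj hu => ?_⟩
    have h7 : ν ∈ {ν | ν < θ ∧ ∃ j < κ.ord, β ∈ B ν j ∧ Unb (L κ) {α | α ∈ T ∧ α ∈ A ν j}} :=
      ⟨hν, j, hj, hβj, hu⟩
    rw [hcon] at h7
    exact h7
  obtain ⟨hν, j, hj, hβj, hu⟩ := csInf_mem h6
  have hmin : ∀ ν' < sInf {ν | ν < θ ∧ ∃ j < κ.ord, β ∈ B ν j ∧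
      Unb (L κ) {α | α ∈ T ∧ α ∈ A ν j}}, ∀ j < κ.ord, β ∈ B ν' j →
      ¬ Unb (L κ) {α | α ∈ T ∧ α ∈ A ν' j} := by
    intro ν' hν' j' hj' hβj' hu'
    exact absurd (csInf_le' (show ν' ∈ {ν | ν < θ ∧ ∃ j < κ.ord, β ∈ B ν j ∧
      Unb (L κ) {α | α ∈ T ∧ α ∈ A ν j}} from ⟨hν'.trans hν, j', hj', hβj', hu'⟩))
      (not_le.2 hν')
  generalize sInf {ν | ν < θ ∧ ∃ j < κ.ord, β ∈ B ν j ∧
      Unb (L κ) {α | α ∈ T ∧ α ∈ A ν j}} = ν at hν hβj hu hmin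
  obtain ⟨k, hk, hk'⟩ := he' ν hν
  set X := {α | α ∈ T ∧ α ∈ A ν j ∧ eps T < α} with hX
  have hXM : X ∈ M := by
    obtain ⟨r, -, hr', hr1, hr2⟩ := hpq' k hk j hj 0 hκpos
    have := hMb.op T hTM T hTM r hr'
    rw [hr1, hr2, hk'] at this
    exact this
  have hXZ : X ⊆ Z := fun α hα => hTZ hα.1
  have hXu : Unb (L κ) X := by
    intro ξ hξ
    obtain ⟨α, hα, h7, h8⟩ := hu (max ξ (eps T)) (max_lt hξ (heps1 T))
    exact ⟨α, ⟨hα.1, hα.2, (le_max_right _ _).trans_lt h7⟩, (le_max_left _ _).trans_lt h7, h8⟩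
  have hF1 : X ∩ Set.Iio (dl ι X) ∈ M := hMc.op X hXM X hXM ι hι
  have hF2 : ∃ δ < L κ, X ∩ Set.Iio (dl ι X) ⊆ Set.Iio δ :=
    ⟨_, hdl1 ι hι X hXZ hXu, Set.inter_subset_right⟩
  have hF3 := hdl2 ι hι X hXZ hXu
  have hF4 : X ∩ Set.Iio (dl ι X) ⊆ Z' := fun α hα => hTZ' hα.1.1
  obtain ⟨η, hη, hw1, hw2, i, hw3⟩ := hw ν hν ι hι _ hF2 hF3 β hG.lt
    (fun α hα => (hG.free _ hF1 hF4 hF2 α hα).1)
  have hF5 : w ν ι (X ∩ Set.Iio (dl ι X)) η ∈ M := by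
    obtain ⟨r, -, hr', hr1, hr2⟩ := hpq' ι hι η hη 0 hκpos
    obtain ⟨r2, -, hr2', hr3, hr4⟩ := hpq' k hk r hr' 0 hκpos
    have := hMd.op _ hF1 _ hF1 r2 hr2'
    rwa [hr3, hr4, hr1, hr2, hk'] at this
  have hF6 : ∃ δ < L κ, w ν ι (X ∩ Set.Iio (dl ι X)) η ⊆ Set.Iio δ := by
    obtain ⟨δ, hδ, hδ'⟩ := hF2
    exact ⟨δ, hδ, hw1.trans hδ'⟩
  refine hno i (Finset.notMem_empty i) _ hF5 hF6 hw2 (hw1.trans fun α hα => hα.1.1) ?_
  intro α hα
  obtain ⟨h7, h8⟩ := hG.free _ hF5 (hw1.trans hF4) hF6 α hα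
  refine ⟨h8, ?_⟩
  have hαX : α ∈ X := (hw1 hα).1
  obtain ⟨ν', hν', ⟨j', hj', h9, h10⟩, h11, h12⟩ := hL.cover α β h7 hG.lt h8
  have hνν : ν' = ν := by
    rcases lt_trichotomy ν' ν with h13 | h13 | h13
    · exfalso
      have h14 := heps2 T ν' hν' j' hj' (hmin ν' h13 j' hj' h10) α hαX.1 h9 (h7.trans hG.lt)
      exact absurd hαX.2.2 (not_lt.2 h14)
    · exact h13
    · exact absurd ⟨j, hj, hαX.2.1, hβj⟩ (h11 ν h13)
  rw [h12, hνν]
  exact hw3 α hα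

lemma core_ind (hκ : κ.IsRegular) (hpow : ∀ μ < κ, κ ^ μ ≤ κ) (hE : Gap κ E)
    {θ : Ordinal.{0}} {A B : Ordinal.{0} → Ordinal.{0} → Set Ordinal.{0}}
    {h : Ordinal.{0} → Ordinal.{0} → Ordinal.{0} → D} (hL : Layers κ E c θ A B h)
    (Y : Set Ordinal.{0}) (J : Finset D) :
    ∀ (S : Ordinal.{0} → Set Ordinal.{0} → Prop) (Z : Set Ordinal.{0}),
      (∀ ι < κ.ord, Fam (S ι)) →
      (∀ ι < κ.ord, ∀ ι' < κ.ord, ∃ ι'' < κ.ord, ∀ X, S ι'' X → S ι X ∧ S ι' X) →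
      Z ⊆ Y → Unb (L κ) Z → (∀ ι < κ.ord, Dens κ (S ι) Z) → Restr κ E c S Z J →
      ∃ i, ∀ γ < L κ, SetIn Y (Conn E c i) (L κ) 0 γ := by
  classical
  have hlim := lim_L hκ
  have hκpos : (0 : Ordinal.{0}) < κ.ord := by
    have := hκ.pos
    simpa using this
  induction J using Finset.induction_on with
  | empty =>
    intro S Z hF hdir hZY hZ hd hr
    exact (base_case hκ hpow hE hL S hF Z hZ hd hr).elim
  | insert i J hiJ ih =>
    intro S Z hF hdir hZY hZ hd hr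
    set N := Conn E c i with hN
    by_cases hall : ∀ ρ < L κ, Dens κ (Hi κ N (S 0) ρ) Z
    · refine ⟨i, fun γ hγ => ?_⟩
      obtain ⟨δ, hδ, hδ'⟩ := hall γ hγ {α | α ∈ Z ∧ 0 < α} (fun α hα => hα.1) (by
        intro ξ hξ
        obtain ⟨α, h1, h2, h3⟩ := hZ ξ hξ
        exact ⟨α, ⟨h1, (zero_le (a := ξ)).trans_lt h2⟩, h2, h3⟩)
      obtain ⟨f, hf, hf'⟩ := hi_set hκ (hF 0 hκpos) γ hγ _ hδ'
      exact ⟨f, fun a ha => ⟨hZY (hf a ha).1.1, (hf a ha).1.2,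
        (Set.mem_Iio.1 (hf a ha).2).trans hδ⟩, hf'⟩
    · push Not at hall
      obtain ⟨ρa, hρa, hnda⟩ := hall
      have hne : {ρ | ρ < L κ ∧ ∃ ι < κ.ord, ¬ Dens κ (Hi κ N (S ι) ρ) Z}.Nonempty :=
        ⟨ρa, hρa, 0, hκpos, hnda⟩
      obtain ⟨hρ, ι1, hι1, hnd⟩ := csInf_mem hne
      have hmin : ∀ σ < sInf {ρ | ρ < L κ ∧ ∃ ι < κ.ord, ¬ Dens κ (Hi κ N (S ι) ρ) Z},
          ∀ ι < κ.ord, Dens κ (Hi κ N (S ι) σ) Z := by
        intro σ hσ ι hι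
        by_contra hcon
        exact absurd (csInf_le' (show σ ∈ {ρ | ρ < L κ ∧ ∃ ι < κ.ord,
          ¬ Dens κ (Hi κ N (S ι) ρ) Z} from ⟨hσ.trans hρ, ι, hι, hcon⟩)) (not_le.2 hσ)
      generalize sInf {ρ | ρ < L κ ∧ ∃ ι < κ.ord, ¬ Dens κ (Hi κ N (S ι) ρ) Z} = ρ
        at hρ hnd hmin
      have hρ0 : 0 < ρ := by
        rcases (zero_le (a := ρ)).eq_or_lt with h0 | h0
        · exfalso
          apply hnd
          intro T hT hu
          obtain ⟨δ, hδ, hδ'⟩ := hd ι1 hι1 T hT hu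
          exact ⟨δ, hδ, by rw [← h0]; exact hi_zero hδ'⟩
        · exact h0
      unfold Dens at hnd
      push Not at hnd
      obtain ⟨Z1, hZ1, hu1, hnd⟩ := hnd
      obtain ⟨e, he, he'⟩ := exists_enum hρ hρ0
      obtain ⟨p, q, hpq, hpq'⟩ := pairing hκ.aleph0_le
      refine ih (fun ι => Hi κ N (S (p ι)) (e (q ι))) Z1 ?_ ?_ (hZ1.trans hZY) hu1 ?_ ?_
      · intro ι hι
        exact fam_hi hκ (hF (p ι) (hpq ι hι).1) _
      · intro ι hι ι' hι'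
        obtain ⟨ι3, hι3, h3⟩ := hdir (p ι) (hpq ι hι).1 (p ι') (hpq ι' hι').1
        obtain ⟨k, hk, hk'⟩ := he' (max (e (q ι)) (e (q ι'))) (max_lt (he _) (he _))
        obtain ⟨r, -, hr1, hr2, hr3⟩ := hpq' ι3 hι3 k hk 0 hκpos
        refine ⟨r, hr1, fun X hX => ?_⟩
        rw [hr2, hr3, hk'] at hX
        exact ⟨hi_sub (fun X hX => (h3 X hX).1) _ X (hi_anti (le_max_left _ _) hX),
          hi_sub (fun X hX => (h3 X hX).2) _ X (hi_anti (le_max_right _ _) hX)⟩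
      · intro ι hι T hT hu
        exact hmin (e (q ι)) (he _) (p ι) (hpq ι hι).1 T (hT.trans hZ1) hu
      · obtain ⟨nx0, hr⟩ := hr
        obtain ⟨nx, hnx⟩ := exists_combine hκ nx0 (stepOp N)
        refine ⟨nx, fun M hM β Z' hZ' hG => ?_⟩
        obtain ⟨hM0, hM1⟩ := hnx M hM
        obtain ⟨T0, hT0M, hT0Z', hβT0, ι0, hι0, hno⟩ := hr M hM0 β Z' (hZ'.trans hZ1) hG
        obtain ⟨ι2, hι2, h2⟩ := hdir ι0 hι0 ι1 hι1
        have hstuck : ∃ T ∈ M, T ⊆ T0 ∧ β ∈ T ∧ ∃ σ < ρ, ∀ F ∈ M,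
            (∃ δ < L κ, F ⊆ Set.Iio δ) → F ⊆ T → Hi κ N (S ι2) σ F → ¬ ∀ α ∈ F, N α β := by
          by_contra hcon
          push Not at hcon
          have h3 := run hκ (hF ι2 hι2) ρ hρ0 hρ hM1 (hG.sub hT0M hT0Z' hβT0)
            (fun T hT hTT0 hβT σ hσ => by
              obtain ⟨F, h4, h5, h6, h7, h8⟩ := hcon T hT hTT0 hβT σ hσ
              exact ⟨F, h4, h5, h6, h7, h8⟩)
          refine hnd β hG.lt ?_
          refine hi_mono (hF ι1 hι1) ?_ (hi_sub (fun X hX => (h2 X hX).2) ρ _ h3)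
          exact Set.inter_subset_inter_left _ (hT0Z'.trans hZ')
        obtain ⟨T, hTM, hTT0, hβT, σ, hσ, hst⟩ := hstuck
        obtain ⟨k, hk, hk'⟩ := he' σ hσ
        obtain ⟨r, -, hr1, hr2, hr3⟩ := hpq' ι2 hι2 k hk 0 hκpos
        refine ⟨T, hTM, hTT0.trans hT0Z', hβT, r, hr1, ?_⟩
        intro i' hi' F hFM hFb hFS hFT
        rw [hr2, hr3, hk'] at hFS
        by_cases hii : i' = i
        · rw [hii]
          exact hst F hFM hFb hFT hFS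
        · exact hno i' (by simp [hii, hi']) F hFM hFb (h2 F (hi_Q hFS)).1 (hFT.trans hTT0)

lemma core [Finite D] (hκ : κ.IsRegular) (hpow : ∀ μ < κ, κ ^ μ ≤ κ) (hE : Gap κ E)
    {θ : Ordinal.{0}} {A B : Ordinal.{0} → Ordinal.{0} → Set Ordinal.{0}}
    {h : Ordinal.{0} → Ordinal.{0} → Ordinal.{0} → D} (hL : Layers κ E c θ A B h)
    (Y : Set Ordinal.{0}) (hY : Unb (L κ) Y) :
    ∃ i, ∀ γ < L κ, SetIn Y (Conn E c i) (L κ) 0 γ := by
  have := Fintype.ofFinite D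
  have hlim := lim_L hκ
  have hκpos : (0 : Ordinal.{0}) < κ.ord := by
    have := hκ.pos
    simpa using this
  refine core_ind hκ hpow hE hL Y Finset.univ (fun _ => Set.Nonempty) Y ?_ ?_ subset_rfl hY
    ?_ ?_
  · intro _ _
    exact ⟨fun X X' hX h => h.mono hX, fun X X' h => Set.union_nonempty.1 h, fun X h => h⟩
  · intro ι hι _ _
    exact ⟨ι, hι, fun X hX => ⟨hX, hX⟩⟩
  · intro _ _ T _ hu
    obtain ⟨α, hα, -, hαL⟩ := hu 0 hlim.bot_lt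
    exact ⟨Order.succ α, hlim.succ_lt hαL, α, hα, Order.lt_succ α⟩
  · refine ⟨fun _ X _ => X, fun M hM β Z' hZ' hG => ⟨Z', hG.mem, subset_rfl, hG.bmem, 0, hκpos,
      fun i hi => absurd (Finset.mem_univ i) hi⟩⟩

end core

section dependent

variable {κ : Cardinal.{0}}

lemma uprop_map {D D' : Type} {t : Ordinal.{0} → Ordinal.{0} → D} (φ : D → D')
    (h : UProp κ t) : UProp κ (fun α β => φ (t α β)) := by
  intro Q hQ F hF hQF
  obtain ⟨w, hw⟩ := h Q hQ F hF hQF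
  refine ⟨w, fun β hβ hFβ => ?_⟩
  obtain ⟨η, hη, h1, h2, i, h3⟩ := hw β hβ hFβ
  exact ⟨η, hη, h1, h2, φ i, fun α hα => congrArg φ (h3 α hα)⟩

lemma uprop_const {D : Type} (hκ : κ.IsRegular) (d : D) :
    UProp κ (fun (_ _ : Ordinal.{0}) => d) := by
  intro Q hQ F hF hQF
  have hκpos : (0 : Ordinal.{0}) < κ.ord := by
    have := hκ.pos
    simpa using this
  exact ⟨fun _ => F, fun β hβ hFβ => ⟨0, hκpos, subset_rfl, hQF, d, fun _ _ => rfl⟩⟩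

lemma uprop_prod {D D' : Type} (hκ : κ.IsRegular) {t : Ordinal.{0} → Ordinal.{0} → D}
    {t' : Ordinal.{0} → Ordinal.{0} → D'} (h : UProp κ t) (h' : UProp κ t') :
    UProp κ (fun α β => (t α β, t' α β)) := by
  classical
  intro Q hQ F hF hQF
  have hκpos : (0 : Ordinal.{0}) < κ.ord := by
    have := hκ.pos
    simpa using this
  obtain ⟨p, q, hpq, hpq'⟩ := pairing hκ.aleph0_le
  obtain ⟨w, hw⟩ := h Q hQ F hF hQF
  have h1 : ∀ η, ∃ w' : Ordinal.{0} → Set Ordinal.{0}, w η ⊆ F → Q (w η) → ∀ β < L κ,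
      w η ⊆ Set.Iio β →
      ∃ η' < κ.ord, w' η' ⊆ w η ∧ Q (w' η') ∧ ∃ i, ∀ α ∈ w' η', t' α β = i := by
    intro η
    by_cases h2 : w η ⊆ F ∧ Q (w η)
    · obtain ⟨w', hw'⟩ := h' Q hQ (w η)
        (by obtain ⟨δ, hδ, hδ'⟩ := hF; exact ⟨δ, hδ, h2.1.trans hδ'⟩) h2.2
      exact ⟨w', fun _ _ => hw'⟩
    · exact ⟨fun _ => ∅, fun h3 h4 => absurd ⟨h3, h4⟩ h2⟩
  choose w' hw' using h1
  refine ⟨fun η => w' (p η) (q η), fun β hβ hFβ => ?_⟩
  obtain ⟨η, hη, h3, h4, i, h5⟩ := hw β hβ hFβ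
  obtain ⟨η', hη', h6, h7, i', h8⟩ := hw' η h3 h4 β hβ (h3.trans hFβ)
  obtain ⟨r, -, hr, hr1, hr2⟩ := hpq' η hη η' hη' 0 hκpos
  refine ⟨r, hr, ?_⟩
  dsimp only
  rw [hr1, hr2]
  exact ⟨h6.trans h3, h7, (i, i'), fun α hα => by rw [h5 α (h6 hα), h8 α hα]⟩

lemma uprop_family (hκ : κ.IsRegular) {H : ℕ → Ordinal.{0} → Ordinal.{0} → Prop}
    (s : Finset ℕ) (hH : ∀ k ∈ s, UProp κ (H k)) :
    UProp κ (fun α β => {k | k ∈ s ∧ H k α β}) := by
  classical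
  induction s using Finset.induction_on with
  | empty =>
    have := uprop_const hκ (∅ : Set ℕ)
    simpa using this
  | insert a s has ih =>
    have h1 := uprop_map (fun x : Prop × Set ℕ => {k | (k = a ∧ x.1) ∨ k ∈ x.2})
      (uprop_prod hκ (hH a (Finset.mem_insert_self a s))
        (ih (fun k hk => hH k (Finset.mem_insert_of_mem hk))))
    have h2 : (fun α β => {k | k ∈ insert a s ∧ H k α β}) = fun α β =>
        (fun x : Prop × Set ℕ => {k | (k = a ∧ x.1) ∨ k ∈ x.2})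
          (H a α β, {k | k ∈ s ∧ H k α β}) := by
      funext α β
      ext k
      change (k ∈ insert a s ∧ H k α β) ↔ ((k = a ∧ H a α β) ∨ (k ∈ s ∧ H k α β))
      rw [Finset.mem_insert]
      constructor
      · rintro ⟨h3 | h3, h4⟩
        · left
          rw [h3] at h4
          exact ⟨h3, h4⟩
        · exact Or.inr ⟨h3, h4⟩
      · rintro (⟨h3, h4⟩ | ⟨h3, h4⟩)
        · rw [← h3] at h4
          exact ⟨Or.inl h3, h4⟩
        · exact ⟨Or.inr h3, h4⟩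
    rw [h2]
    exact h1

/-- the elements of `T` above `δ` with the pattern `p` -/
def Pt (κ : Cardinal.{0}) (H : Ordinal.{0} → Ordinal.{0} → Prop) (δ : Ordinal.{0})
    (T : Set Ordinal.{0}) (p : List (Ordinal.{0} × Bool)) : Set Ordinal.{0} :=
  {ξ | ξ ∈ T ∧ δ ≤ ξ ∧ ξ < L κ ∧ ∀ y ∈ p, (H y.1 ξ ↔ y.2 = true)}

/-- the rank of a pattern is at least `ρ` -/
def Rk (κ : Cardinal.{0}) (H : Ordinal.{0} → Ordinal.{0} → Prop) (δ : Ordinal.{0})
    (Q : Set Ordinal.{0} → Prop) (F T : Set Ordinal.{0}) (ρ : Ordinal.{0})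
    (p : List (Ordinal.{0} × Bool)) : Prop :=
  (Pt κ H δ T p).Nonempty ∧ ∀ σ : Set.Iio ρ,
    ¬ Q {x | x ∈ F ∧ ¬ (Rk κ H δ Q F T σ ((x, true) :: p) ∧ Rk κ H δ Q F T σ ((x, false) :: p))}
termination_by ρ
decreasing_by
  · exact σ.2
  · exact σ.2

variable {H : Ordinal.{0} → Ordinal.{0} → Prop} {δ : Ordinal.{0}} {Q : Set Ordinal.{0} → Prop}
  {F T : Set Ordinal.{0}}

lemma rk_iff (ρ : Ordinal.{0}) (p : List (Ordinal.{0} × Bool)) : Rk κ H δ Q F T ρ p ↔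
    (Pt κ H δ T p).Nonempty ∧ ∀ σ < ρ,
    ¬ Q {x | x ∈ F ∧ ¬ (Rk κ H δ Q F T σ ((x, true) :: p) ∧
      Rk κ H δ Q F T σ ((x, false) :: p))} := by
  rw [Rk]
  constructor
  · rintro ⟨h1, h2⟩
    exact ⟨h1, fun σ hσ => h2 ⟨σ, hσ⟩⟩
  · rintro ⟨h1, h2⟩
    exact ⟨h1, fun σ => h2 σ σ.2⟩

lemma rk_anti {σ ρ : Ordinal.{0}} (hσ : σ ≤ ρ) {p : List (Ordinal.{0} × Bool)}
    (h : Rk κ H δ Q F T ρ p) : Rk κ H δ Q F T σ p := by
  rw [rk_iff] at h ⊢
  exact ⟨h.1, fun τ hτ => h.2 τ (hτ.trans_le hσ)⟩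

lemma fam_finite {I : Type*} {Q : Set Ordinal.{0} → Prop} (hQ : Fam Q)
    (X : I → Set Ordinal.{0}) (s : Finset I) (h : Q (⋃ i ∈ s, X i)) : ∃ i ∈ s, Q (X i) := by
  classical
  induction s using Finset.induction_on with
  | empty =>
    obtain ⟨α, hα⟩ := hQ.nonempty _ h
    simp at hα
  | insert a s has ih =>
    rw [Finset.set_biUnion_insert] at h
    rcases hQ.union _ _ h with h1 | h1
    · exact ⟨a, Finset.mem_insert_self a s, h1⟩
    · obtain ⟨i, hi, hi'⟩ := ih h1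
      exact ⟨i, Finset.mem_insert_of_mem hi, hi'⟩

lemma finite_patterns {I : Type*} (xs : List I) :
    {l : List (I × Bool) | l.map Prod.fst = xs}.Finite := by
  induction xs with
  | nil =>
    refine (Set.finite_singleton []).subset ?_
    intro l hl
    exact List.map_eq_nil_iff.1 hl
  | cons x xs ih =>
    refine ((ih.image (fun l => (x, true) :: l)).union
      (ih.image (fun l => (x, false) :: l))).subset ?_
    intro l hl
    obtain ⟨y, l', rfl, h1, h2⟩ := List.map_eq_cons_iff.1 hl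
    obtain ⟨y1, y2⟩ := y
    dsimp only at h1
    subst h1
    cases y2 with
    | true => exact Or.inl ⟨l', h2, rfl⟩
    | false => exact Or.inr ⟨l', h2, rfl⟩

lemma enum_list (hκ : κ.IsRegular) (hδ : δ < L κ) (hF : F ⊆ Set.Iio δ) :
    ∃ en : Ordinal.{0} → List (F × Bool), ∀ l, ∃ k < κ.ord, en k = l := by
  classical
  have h1 : δ.card ≤ κ := Order.lt_succ_iff.1 (lt_ord.1 hδ)
  have h2 : #F ≤ Cardinal.lift.{1} κ := by
    refine (Cardinal.mk_le_mk_of_subset hF).trans ?_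
    rw [Cardinal.mk_Iio_ordinal]
    exact Cardinal.lift_le.2 h1
  have h3 : ℵ₀ ≤ Cardinal.lift.{1} κ := Cardinal.aleph0_le_lift.2 hκ.aleph0_le
  have h4 : #(F × Bool) ≤ Cardinal.lift.{1} κ := by
    rw [Cardinal.mk_prod]
    refine (mul_le_mul' (Cardinal.lift_le.2 h2) le_rfl).trans ?_
    rw [Cardinal.lift_lift]
    refine (Cardinal.mul_le_max_of_aleph0_le_left h3).trans ?_
    refine max_le le_rfl ?_
    refine le_trans ?_ h3
    simp
  have h5 : #(List (F × Bool)) ≤ #(Set.Iio κ.ord) := by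
    rw [Cardinal.mk_Iio_ordinal, Cardinal.card_ord]
    exact (Cardinal.mk_list_le_max _).trans (max_le h3 h4)
  obtain ⟨j⟩ := h5
  refine ⟨fun k => if h : ∃ l, (j l : Ordinal) = k then h.choose else [], fun l =>
    ⟨j l, (j l).2, ?_⟩⟩
  have h : ∃ l', (j l' : Ordinal) = (j l : Ordinal) := ⟨l, rfl⟩
  dsimp only
  rw [dif_pos h]
  exact j.injective (Subtype.ext h.choose_spec)

/-- the pattern of a list of elements of `F` -/
def toP (l : List (F × Bool)) : List (Ordinal.{0} × Bool) :=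
  l.map (fun y => ((y.1 : Ordinal.{0}), y.2))

lemma uprop_of_dep (hκ : κ.IsRegular) (hH : Dep κ H) : UProp κ H := by
  classical
  intro Q hQ F hF hQF
  have hreg : (Order.succ κ).IsRegular := isRegular_succ hκ.aleph0_le
  have hlim := lim_L hκ
  have hκL : κ.ord < L κ := by
    unfold L
    exact ord_lt_ord.2 (Order.lt_succ κ)
  have hκpos : (0 : Ordinal.{0}) < κ.ord := by
    have := hκ.pos
    simpa using this
  have hκlim : Order.IsSuccLimit κ.ord := isSuccLimit_ord hκ.aleph0_le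
  have hκ1 : (1 : Ordinal.{0}) < κ.ord := by
    have := hκlim.succ_lt hκpos
    simpa using this
  obtain ⟨δ0, hδ0, hFδ0⟩ := hF
  have hne : {δ : Ordinal.{0} | F ⊆ Set.Iio δ}.Nonempty := ⟨δ0, hFδ0⟩
  obtain ⟨δ, hδdef⟩ : ∃ δ, δ = sInf {δ : Ordinal.{0} | F ⊆ Set.Iio δ} := ⟨_, rfl⟩
  have hFδ : F ⊆ Set.Iio δ := by
    rw [hδdef]
    exact csInf_mem hne
  have hδle : ∀ β, F ⊆ Set.Iio β → δ ≤ β := by
    intro β hβ
    rw [hδdef]
    exact csInf_le' hβ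
  have hδ : δ < L κ := (hδle δ0 hFδ0).trans_lt hδ0
  obtain ⟨T, hT1, hT2⟩ := hH δ hδ
  obtain ⟨en, hen⟩ := enum_list hκ hδ hFδ
  obtain ⟨p, q, hpq, hpq'⟩ := pairing hκ.aleph0_le
  -- the rank stabilises
  obtain ⟨lam, hlam, hlam'⟩ : ∃ lam < L κ, ∀ η < κ.ord, ∀ l : List (F × Bool),
      Rk κ H δ Q F (T η) lam (toP l) → ∀ ρ < L κ, Rk κ H δ Q F (T η) ρ (toP l) := by
    have h1 : ∀ (η : Ordinal.{0}) (l : List (F × Bool)), ∃ d < L κ,
        Rk κ H δ Q F (T η) d (toP l) → ∀ ρ < L κ, Rk κ H δ Q F (T η) ρ (toP l) := by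
      intro η l
      by_cases h : ∃ ρ < L κ, ¬ Rk κ H δ Q F (T η) ρ (toP l)
      · obtain ⟨ρ, hρ, h2⟩ := h
        exact ⟨ρ, hρ, fun h3 => absurd h3 h2⟩
      · push Not at h
        exact ⟨0, hlim.bot_lt, fun _ => h⟩
    choose d hd hd' using h1
    have h2 : ∀ η, ∃ b < L κ, ∀ k < κ.ord, d η (en k) ≤ b := fun η =>
      sup_lt hreg hκL (fun k => d η (en k)) (fun k _ => hd η (en k))
    choose b hb hb' using h2
    obtain ⟨lam, hlam, hlam'⟩ := sup_lt hreg hκL b (fun η _ => hb η)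
    refine ⟨lam, hlam, fun η hη l h3 => hd' η l (rk_anti ?_ h3)⟩
    obtain ⟨k, hk, hk'⟩ := hen l
    rw [← hk']
    exact (hb' η k hk).trans (hlam' η hη)
  obtain ⟨e, he, he'⟩ := exists_enum (κ := κ) (γ := Order.succ lam) (hlim.succ_lt hlam)
    ((zero_le (a := lam)).trans_lt (Order.lt_succ lam))
  refine ⟨fun ι => {x | x ∈ F ∧ ¬ Rk κ H δ Q F (T (p (q ι))) (e (p ι))
    ((x, decide (q (q (q ι)) = 0)) :: toP (en (p (q (q ι)))))}, fun β hβ hFβ => ?_⟩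
  have hδβ : δ ≤ β := hδle β hFβ
  obtain ⟨η0, hη0, hβT⟩ := hT1 β hδβ hβ
  by_contra hcon
  push Not at hcon
  -- the sets in the family
  have hw : ∀ σ < lam, ∀ (l : List (F × Bool)) (ε : Bool), ∃ ι < κ.ord,
      {x | x ∈ F ∧ ¬ Rk κ H δ Q F (T (p (q ι))) (e (p ι))
        ((x, decide (q (q (q ι)) = 0)) :: toP (en (p (q (q ι)))))} =
      {x | x ∈ F ∧ ¬ Rk κ H δ Q F (T η0) σ ((x, ε) :: toP l)} := by
    intro σ hσ l ε
    obtain ⟨k, hk, hk'⟩ := hen l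
    obtain ⟨k', hk1, hk1'⟩ := he' σ (hσ.trans (Order.lt_succ lam))
    obtain ⟨z, hz, hz'⟩ : ∃ z < κ.ord, decide (z = 0) = ε := by
      cases ε with
      | true => exact ⟨0, hκpos, by simp⟩
      | false => exact ⟨1, hκ1, by simp⟩
    obtain ⟨r1, -, hr1, g1, g2⟩ := hpq' k hk z hz 0 hκpos
    obtain ⟨r2, -, hr2, g3, g4⟩ := hpq' η0 hη0 r1 hr1 0 hκpos
    obtain ⟨ι, -, hι, g5, g6⟩ := hpq' k' hk1 r2 hr2 0 hκpos
    refine ⟨ι, hι, ?_⟩
    rw [g5, g6, g3, g4, g1, g2, hk', hk1', hz']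
  have hrank : ∀ ρ ≤ lam, ∀ l : List (F × Bool), β ∈ Pt κ H δ (T η0) (toP l) →
      Rk κ H δ Q F (T η0) ρ (toP l) := by
    intro ρ
    induction ρ using WellFoundedLT.induction with
    | _ ρ ih =>
      intro hρ l hβl
      rw [rk_iff]
      refine ⟨⟨β, hβl⟩, fun σ hσ hbad => ?_⟩
      have h1 := hQ.mono _ ({x | x ∈ F ∧ ¬ Rk κ H δ Q F (T η0) σ ((x, true) :: toP l)} ∪
        {x | x ∈ F ∧ ¬ Rk κ H δ Q F (T η0) σ ((x, false) :: toP l)}) (by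
          rintro x ⟨hx, hx'⟩
          by_cases h2 : Rk κ H δ Q F (T η0) σ ((x, true) :: toP l)
          · exact Or.inr ⟨hx, fun h3 => hx' ⟨h2, h3⟩⟩
          · exact Or.inl ⟨hx, h2⟩) hbad
      have hσl := hσ.trans_le hρ
      rcases hQ.union _ _ h1 with h2 | h2
      · obtain ⟨ι, hι, hι'⟩ := hw σ hσl l true
        obtain ⟨x, hx, hx'⟩ := hcon ι hι (fun x hx => hx.1) (by rw [hι']; exact h2) False
        rw [hι'] at hx
        refine hx' (eq_false fun hHx => hx.2 ?_)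
        refine ih σ hσ hσl.le ((⟨x, hx.1⟩, true) :: l) ⟨hβl.1, hβl.2.1, hβl.2.2.1, ?_⟩
        intro y hy
        rcases List.mem_cons.1 hy with h3 | h3
        · rw [h3]
          simpa using hHx
        · exact hβl.2.2.2 y h3
      · obtain ⟨ι, hι, hι'⟩ := hw σ hσl l false
        obtain ⟨x, hx, hx'⟩ := hcon ι hι (fun x hx => hx.1) (by rw [hι']; exact h2) True
        rw [hι'] at hx
        refine hx' (eq_true ?_)
        by_contra hHx
        refine hx.2 ?_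
        refine ih σ hσ hσl.le ((⟨x, hx.1⟩, false) :: l) ⟨hβl.1, hβl.2.1, hβl.2.2.1, ?_⟩
        intro y hy
        rcases List.mem_cons.1 hy with h3 | h3
        · rw [h3]
          simpa using hHx
        · exact hβl.2.2.2 y h3
  -- an independent sequence
  have hnil : Rk κ H δ Q F (T η0) lam (toP ([] : List (F × Bool))) :=
    hrank lam le_rfl [] ⟨hβT, hδβ, hβ, fun y hy => absurd hy (by simp [toP])⟩
  set Good : List F → Prop := fun xs => ∀ l : List (F × Bool), l.map Prod.fst = xs →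
    Rk κ H δ Q F (T η0) lam (toP l) with hGood
  have hG0 : Good [] := by
    intro l hl
    have h1 : l = [] := List.map_eq_nil_iff.1 hl
    rw [h1]
    exact hnil
  have hGs : ∀ xs, Good xs → ∃ x : F, Good (x :: xs) := by
    intro xs hxs
    by_contra hno
    push Not at hno
    have hfin := finite_patterns (I := F) xs
    have h1 : Q (⋃ l ∈ hfin.toFinset, {x | x ∈ F ∧
        ¬ (Rk κ H δ Q F (T η0) lam ((x, true) :: toP l) ∧
          Rk κ H δ Q F (T η0) lam ((x, false) :: toP l))}) := by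
      refine hQ.mono _ _ ?_ hQF
      intro x hx
      have h2 := hno ⟨x, hx⟩
      rw [hGood] at h2
      push Not at h2
      obtain ⟨l, hl, hl'⟩ := h2
      obtain ⟨y, l', rfl, h3, h4⟩ := List.map_eq_cons_iff.1 hl
      simp only [Set.mem_iUnion]
      refine ⟨l', (Set.Finite.mem_toFinset hfin).2 h4, hx, fun h5 => ?_⟩
      obtain ⟨y1, y2⟩ := y
      dsimp only at h3
      subst h3
      cases y2 with
      | true => exact hl' h5.1
      | false => exact hl' h5.2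
    obtain ⟨l, hl, hl'⟩ := fam_finite hQ _ _ h1
    have h2 := hxs l ((Set.Finite.mem_toFinset hfin).1 hl)
    have h3 := hlam' η0 hη0 l h2 (Order.succ lam) (hlim.succ_lt hlam)
    rw [rk_iff] at h3
    exact h3.2 lam (Order.lt_succ lam) hl'
  choose nxt hnxt using hGs
  let sq' : ℕ → {xs : List F // Good xs} := fun n =>
    Nat.rec ⟨[], hG0⟩ (fun _ xs => ⟨nxt xs.1 xs.2 :: xs.1, hnxt xs.1 xs.2⟩) n
  have hsq : ∀ n, (sq' (n + 1)).1 = nxt (sq' n).1 (sq' n).2 :: (sq' n).1 := fun n => rfl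
  refine hT2 η0 hη0 ⟨fun n => (nxt (sq' n).1 (sq' n).2 : Ordinal.{0}),
    fun n => hFδ (nxt (sq' n).1 (sq' n).2).2, fun n s => ?_⟩
  let pl : ℕ → List (F × Bool) := fun n =>
    Nat.rec [] (fun i l => (nxt (sq' i).1 (sq' i).2, decide (s i)) :: l) n
  have hpl : ∀ i, pl (i + 1) = (nxt (sq' i).1 (sq' i).2, decide (s i)) :: pl i := fun i => rfl
  have hpl2 : ∀ n, (pl n).map Prod.fst = (sq' n).1 := by
    intro n
    induction n with
    | zero => rfl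
    | succ n ih => rw [hpl, hsq, List.map_cons, ih]
  have hpl3 : ∀ n, ∀ i < n, (nxt (sq' i).1 (sq' i).2, decide (s i)) ∈ pl n := by
    intro n
    induction n with
    | zero =>
      intro i hi
      exact absurd hi (Nat.not_lt_zero i)
    | succ n ih =>
      intro i hi
      rw [hpl]
      rcases Nat.lt_succ_iff_lt_or_eq.1 hi with h1 | h1
      · exact List.mem_cons_of_mem _ (ih i h1)
      · rw [h1]
        exact List.mem_cons_self
  have h1 := (sq' n).2 (pl n) (hpl2 n)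
  rw [rk_iff] at h1
  obtain ⟨ξ, h2, h3, h4, h5⟩ := h1.1
  refine ⟨ξ, h2, h3, h4, fun i hi => ?_⟩
  have h6 := h5 ((nxt (sq' i).1 (sq' i).2 : Ordinal.{0}), decide (s i))
    (List.mem_map.2 ⟨_, hpl3 n i hi, rfl⟩)
  simpa using h6

end dependent

section main

variable {κ : Cardinal.{0}}

lemma unb_univ (hκ : κ.IsRegular) : Unb (L κ) Set.univ := by
  have hlim := lim_L hκ
  exact fun ξ hξ => ⟨Order.succ ξ, trivial, Order.lt_succ ξ, hlim.succ_lt hξ⟩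

/-- Tame colourings have homogeneous sets of all types below `κ⁺`. -/
theorem tame_main (hκ : κ.IsRegular) (hpow : ∀ μ < κ, κ ^ μ ≤ κ) {m : ℕ}
    {c : Ordinal.{0} → Ordinal.{0} → Fin m} (hc : Tame κ c) :
    ∃ i : Fin m, ∀ γ < L κ, HasSet (fun α β => c α β = i) (L κ) γ := by
  classical
  obtain ⟨θ, U, n, H, F, E, η, hθ, hU, hH, hη, hE, hc⟩ := hc
  have hU' := hU
  unfold Rect at hU'
  choose! A B hAB using hU'
  have hL : Layers κ E c θ A B (fun ν α β => F ν {k | k ∈ Finset.range (n ν) ∧ H ν k α β}) := by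
    refine ⟨hθ, fun ν hν => uprop_map (F ν) (uprop_family hκ _ (fun k hk =>
      uprop_of_dep hκ (hH ν hν k (Finset.mem_range.1 hk)))), fun α β hαβ hβ hEαβ => ?_⟩
    obtain ⟨ν, hν, h1, h2, h3⟩ := hc α β hαβ hβ hEαβ
    refine ⟨ν, hν, (hAB ν hν α β).1 h1,
      fun ν' hν' h4 => h2 ν' hν' ((hAB ν' (hν'.trans hν) α β).2 h4), ?_⟩
    rw [h3]
    congr 1
    ext k
    exact ⟨fun h => ⟨Finset.mem_range.2 h.1, h.2⟩, fun h => ⟨Finset.mem_range.1 h.1, h.2⟩⟩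
  obtain ⟨i, hi⟩ := core hκ hpow (gap_of_small hκ hη hE) hL Set.univ (unb_univ hκ)
  refine ⟨i, fun γ hγ => ?_⟩
  obtain ⟨f, hf, hf'⟩ := hi γ hγ
  exact ⟨f, fun a ha => (hf a ha).2.2, fun a b hab hb =>
    ⟨(hf' a b hab hb).1, (hf' a b hab hb).2.2⟩⟩

lemma dep_of_finVC (hκ : κ.IsRegular) {H : Ordinal.{0} → Ordinal.{0} → Prop}
    (hH : FinVC κ H) : Dep κ H := by
  classical
  obtain ⟨d, hd⟩ := hH
  intro δ _
  refine ⟨fun _ => Set.univ, fun β _ _ => ⟨0, ?_, trivial⟩, ?_⟩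
  · have := hκ.pos
    simpa using this
  · rintro η _ ⟨x, hx, hx'⟩
    refine hd ⟨fun i => x i, fun s => ?_⟩
    obtain ⟨β, -, h1, h2, h3⟩ := hx' d (fun i => if h : i < d then s ⟨i, h⟩ else True)
    refine ⟨β, h2, fun i => (hx i).trans_le h1, fun i => ?_⟩
    have h4 := h3 i i.2
    rw [dif_pos i.2] at h4
    exact h4

/-- If on every `δ < κ⁺` the functions `H · β`, `δ ≤ β < κ⁺`, are among `κ` functions, then `H`
is piecewise dependent. -/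
lemma dep_of_few {H : Ordinal.{0} → Ordinal.{0} → Prop}
    (hH : ∀ δ < L κ, ∃ e : Ordinal.{0} → Ordinal.{0} → Prop, ∀ β, δ ≤ β → β < L κ →
      ∃ η < κ.ord, ∀ α < δ, (H α β ↔ e η α)) : Dep κ H := by
  intro δ hδ
  obtain ⟨e, he⟩ := hH δ hδ
  refine ⟨fun η => {β | ∀ α < δ, (H α β ↔ e η α)}, he, fun η _ => ?_⟩
  rintro ⟨x, hx, hx'⟩
  obtain ⟨β, hβ, -, -, h1⟩ := hx' 1 (fun _ => ¬ e η (x 0))
  have h2 := (hβ (x 0) (hx 0)).symm.trans (h1 0 zero_lt_one)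
  exact iff_not_self h2

/-- A relation of finite VC dimension is tame. -/
lemma tame_of_finVC (hκ : κ.IsRegular) {G : Ordinal.{0} → Ordinal.{0} → Prop}
    (hG : FinVC κ G) : Tame κ (fun α β => open Classical in if G α β then (1 : Fin 2) else 0) := by
  classical
  have h1 : (1 : Ordinal.{0}) < L κ := by
    have := (lim_L hκ).succ_lt (lim_L hκ).bot_lt
    simpa using this
  have hκpos : (0 : Ordinal.{0}) < κ.ord := by
    have := hκ.pos
    simpa using this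
  refine ⟨1, fun _ _ _ => True, fun _ => 1, fun _ _ => G, fun _ s => if 0 ∈ s then 1 else 0,
    fun _ _ => False, 1, h1, ?_, fun _ _ _ _ => dep_of_finVC hκ hG, h1, ?_, ?_⟩
  · intro ν _
    exact ⟨fun _ => Set.univ, fun _ => Set.univ, fun α β =>
      ⟨fun _ => ⟨0, hκpos, trivial, trivial⟩, fun _ => trivial⟩⟩
  · rintro β _ ⟨f, hf, -⟩
    exact (hf 0 zero_lt_one).2
  · intro α β _ _ _
    refine ⟨0, zero_lt_one, trivial, fun ν' hν' => absurd hν' (not_lt.2 zero_le), ?_⟩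
    by_cases h3 : G α β
    · simp [h3]
    · simp [h3]

end main

section ch

lemma L_aleph1 : L ℵ₁ = ω_ 2 := by
  unfold L
  rw [Cardinal.succ_aleph, Cardinal.ord_aleph]
  norm_num

lemma ord_aleph1 : (ℵ₁ : Cardinal.{0}).ord = ω₁ := Cardinal.ord_aleph 1

lemma pow_of_ch (hch : (𝔠 : Cardinal.{0}) = ℵ₁) : ∀ μ < (ℵ₁ : Cardinal.{0}), ℵ₁ ^ μ ≤ ℵ₁ := by
  intro μ hμ
  have h2 : μ ≤ ℵ₀ := by
    rw [← succ_aleph0] at hμ
    exact Order.lt_succ_iff.1 hμ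
  calc (ℵ₁ : Cardinal.{0}) ^ μ ≤ ℵ₁ ^ (ℵ₀ : Cardinal.{0}) :=
        Cardinal.power_le_power_left (Cardinal.aleph_pos 1).ne' h2
    _ = ℵ₁ := by rw [← hch, Cardinal.continuum_power_aleph0]

lemma no_mono (r : Ordinal.{0} → ℝ)
    (H : ∀ a b, a < b → b < ω₁ → r a < r b) : False := by
  have hlim : Order.IsSuccLimit (ω₁ : Ordinal.{0}) := isSuccLimit_omega 1
  have h1 : ∀ a : Set.Iio (ω₁ : Ordinal.{0}), ∃ q : ℚ, r a < q ∧ (q : ℝ) < r (Order.succ a.1) :=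
    fun a => exists_rat_btwn (H _ _ (Order.lt_succ a.1) (hlim.succ_lt a.2))
  choose q hq1 hq2 using h1
  have hinj : Function.Injective q := by
    intro a b hab
    rcases lt_trichotomy a b with h | h | h
    · exfalso
      have h2 : r (Order.succ a.1) ≤ r b := by
        rcases (Order.succ_le_of_lt (show a.1 < b.1 from h)).eq_or_lt with h3 | h3
        · rw [h3]
        · exact (H _ _ h3 b.2).le
      have := (hq2 a).trans_le (h2.trans (hq1 b).le)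
      rw [hab] at this
      exact lt_irrefl _ this
    · exact h
    · exfalso
      have h2 : r (Order.succ b.1) ≤ r a := by
        rcases (Order.succ_le_of_lt (show b.1 < a.1 from h)).eq_or_lt with h3 | h3
        · rw [h3]
        · exact (H _ _ h3 a.2).le
      have := (hq2 b).trans_le (h2.trans (hq1 a).le)
      rw [hab] at this
      exact lt_irrefl _ this
  have hc : Countable (Set.Iio (ω₁ : Ordinal.{0})) := hinj.countable
  have h4 := Cardinal.mk_le_aleph0_iff.2 hc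
  rw [Cardinal.mk_Iio_ordinal] at h4
  simp at h4

/-- If CH fails, Sierpinski's colouring has VC dimension one. -/
lemma sierpinski (hch : (𝔠 : Cardinal.{0}) ≠ ℵ₁) :
    ∃ G : Ordinal.{0} → Ordinal.{0} → Prop, FinVC ℵ₁ G ∧ ¬ HasSet G (ω_ 2) ω₁ ∧
      ¬ HasSet (fun α β => ¬ G α β) (ω_ 2) ω₁ := by
  classical
  have hc2 : (ℵ_ 2 : Cardinal.{0}) ≤ 𝔠 := by
    have h1 : (ℵ₁ : Cardinal.{0}) < 𝔠 := lt_of_le_of_ne Cardinal.aleph_one_le_continuum hch.symm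
    have h2 := Order.succ_le_of_lt h1
    rw [Cardinal.succ_aleph] at h2
    norm_num at h2
    exact h2
  have hr : ∃ r : Ordinal.{0} → ℝ, ∀ α β, α < β → β < ω_ 2 → r α ≠ r β := by
    have h3 : Cardinal.lift.{0} #(Set.Iio (ω_ 2 : Ordinal.{0})) ≤ Cardinal.lift.{1} #ℝ := by
      rw [Cardinal.mk_Iio_ordinal, Cardinal.mk_real]
      simpa using Cardinal.lift_le.{1}.2 hc2
    obtain ⟨j⟩ := Cardinal.lift_mk_le'.1 h3
    refine ⟨fun α => if hα : α ∈ Set.Iio (ω_ 2 : Ordinal.{0}) then j ⟨α, hα⟩ else 0,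
      fun α β hαβ hβ => ?_⟩
    dsimp only
    rw [dif_pos (show α ∈ Set.Iio (ω_ 2 : Ordinal.{0}) from hαβ.trans hβ),
      dif_pos (show β ∈ Set.Iio (ω_ 2 : Ordinal.{0}) from hβ)]
    intro heq
    exact hαβ.ne (congrArg Subtype.val (j.injective heq))
  obtain ⟨r, hr⟩ := hr
  refine ⟨fun α β => r α < r β, ?_, ?_, ?_⟩
  · refine ⟨2, ?_⟩
    rintro ⟨x, hx⟩
    obtain ⟨β, -, -, h1⟩ := hx (fun i => i = 0)
    obtain ⟨β', -, -, h2⟩ := hx (fun i => i = 1)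
    have h3 := (h1 0).2 rfl
    have h4 : ¬ r (x 1) < r β := fun h => absurd ((h1 1).1 h) (by decide)
    have h5 := (h2 1).2 rfl
    have h6 : ¬ r (x 0) < r β' := fun h => absurd ((h2 0).1 h) (by decide)
    exact absurd (h3.trans_le (not_lt.1 h4)) (not_lt.2 (h5.le.trans (not_lt.1 h6)))
  · rintro ⟨f, hf, hf'⟩
    exact no_mono (fun a => r (f a)) (fun a b hab hb => (hf' a b hab hb).2)
  · rintro ⟨f, hf, hf'⟩
    refine no_mono (fun a => - r (f a)) (fun a b hab hb => ?_)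
    have h1 := (hf' a b hab hb).2
    have h2 := hr (f a) (f b) (hf' a b hab hb).1 (hf b hb)
    exact neg_lt_neg (lt_of_le_of_ne (not_lt.1 h1) h2.symm)

end ch

/-- The result. Let `κ` be regular with `κ ^ μ ≤ κ` for all `μ < κ` (for `κ = ℵ₁` this is CH).
Every tame colouring of the pairs of `κ⁺` with finitely many colours has, in one colour,
homogeneous sets of all order types `γ < κ⁺`. For `κ = ℵ₁` and two colours this is equivalent to
CH, even for the relations of finite VC dimension on `ω₂` and for order type `ω₁`. -/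
theorem result :
    (∀ κ : Cardinal.{0}, κ.IsRegular → (∀ μ < κ, κ ^ μ ≤ κ) →
      ∀ (m : ℕ) (c : Ordinal.{0} → Ordinal.{0} → Fin m), Tame κ c →
        ∃ i : Fin m, ∀ γ < L κ, HasSet (fun α β => c α β = i) (L κ) γ) ∧
    ((𝔠 : Cardinal.{0}) = ℵ₁ ↔ ∀ c : Ordinal.{0} → Ordinal.{0} → Fin 2, Tame ℵ₁ c →
      ∃ i : Fin 2, ∀ γ < ω_ 2, HasSet (fun α β => c α β = i) (ω_ 2) γ) ∧
    ((𝔠 : Cardinal.{0}) = ℵ₁ ↔ ∀ G : Ordinal.{0} → Ordinal.{0} → Prop, FinVC ℵ₁ G →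
      (∀ γ < ω_ 2, HasSet G (ω_ 2) γ) ∨ ∀ γ < ω_ 2, HasSet (fun α β => ¬ G α β) (ω_ 2) γ) ∧
    ((𝔠 : Cardinal.{0}) = ℵ₁ ↔ ∀ G : Ordinal.{0} → Ordinal.{0} → Prop, FinVC ℵ₁ G →
      HasSet G (ω_ 2) ω₁ ∨ HasSet (fun α β => ¬ G α β) (ω_ 2) ω₁) := by
  classical
  have h12 : (ω₁ : Ordinal.{0}) < ω_ 2 := by
    rw [Ordinal.omega_lt_omega]
    exact one_lt_two
  have hpos : (𝔠 : Cardinal.{0}) = ℵ₁ → ∀ c : Ordinal.{0} → Ordinal.{0} → Fin 2, Tame ℵ₁ c →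
      ∃ i : Fin 2, ∀ γ < ω_ 2, HasSet (fun α β => c α β = i) (ω_ 2) γ := by
    intro hch c hc
    have := tame_main isRegular_aleph_one (pow_of_ch hch) hc
    rwa [L_aleph1] at this
  have hneg : (∀ G : Ordinal.{0} → Ordinal.{0} → Prop, FinVC ℵ₁ G →
      HasSet G (ω_ 2) ω₁ ∨ HasSet (fun α β => ¬ G α β) (ω_ 2) ω₁) → (𝔠 : Cardinal.{0}) = ℵ₁ := by
    intro H
    by_contra hch
    obtain ⟨G, hG, h1, h2⟩ := sierpinski hch
    rcases H G hG with h | h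
    · exact h1 h
    · exact h2 h
  have h21 : (∀ c : Ordinal.{0} → Ordinal.{0} → Fin 2, Tame ℵ₁ c →
      ∃ i : Fin 2, ∀ γ < ω_ 2, HasSet (fun α β => c α β = i) (ω_ 2) γ) →
      ∀ G : Ordinal.{0} → Ordinal.{0} → Prop, FinVC ℵ₁ G →
      (∀ γ < ω_ 2, HasSet G (ω_ 2) γ) ∨ ∀ γ < ω_ 2, HasSet (fun α β => ¬ G α β) (ω_ 2) γ := by
    intro H G hG
    obtain ⟨i, hi⟩ := H _ (tame_of_finVC isRegular_aleph_one hG)
    fin_cases i
    · right
      intro γ hγ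
      obtain ⟨f, hf, hf'⟩ := hi γ hγ
      refine ⟨f, hf, fun a b hab hb => ⟨(hf' a b hab hb).1, fun hG' => ?_⟩⟩
      have := (hf' a b hab hb).2
      simp [hG'] at this
    · left
      intro γ hγ
      obtain ⟨f, hf, hf'⟩ := hi γ hγ
      refine ⟨f, hf, fun a b hab hb => ⟨(hf' a b hab hb).1, ?_⟩⟩
      by_contra hG'
      have := (hf' a b hab hb).2
      simp [hG'] at this
  have h10 : (∀ G : Ordinal.{0} → Ordinal.{0} → Prop, FinVC ℵ₁ G →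
      (∀ γ < ω_ 2, HasSet G (ω_ 2) γ) ∨ ∀ γ < ω_ 2, HasSet (fun α β => ¬ G α β) (ω_ 2) γ) →
      ∀ G : Ordinal.{0} → Ordinal.{0} → Prop, FinVC ℵ₁ G →
      HasSet G (ω_ 2) ω₁ ∨ HasSet (fun α β => ¬ G α β) (ω_ 2) ω₁ := by
    intro H G hG
    rcases H G hG with h | h
    · exact Or.inl (h _ h12)
    · exact Or.inr (h _ h12)
  exact ⟨fun κ hκ hpow m c hc => tame_main hκ hpow hc,
    ⟨hpos, fun H => hneg (h10 (h21 H))⟩, ⟨fun hch => h21 (hpos hch), fun H => hneg (h10 H)⟩,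
    ⟨fun hch => h10 (h21 (hpos hch)), hneg⟩⟩

end Pool.Agent.Results.MP_fec9fd_lc.TameColourings
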